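import Mathlib

/-!
# Function spaces with the topology of pointwise convergence, a principle about graphs, forcing
-/

set_option autoImplicit false
set_option linter.unusedSectionVars false
set_option linter.unusedVariables false

namespace Pool.Agent.Helper161.Cpu

open Cardinal

section Spaces

/-- The underlying set of the space `C_p(X)`: the continuous functions from `X` to `ℝ`. -/
def Cp (X : Type) [TopologicalSpace X] : Type := C(X, ℝ)

/-- The topology of pointwise convergence on `C_p(X)`. -/
instance (X : Type) [TopologicalSpace X] : TopologicalSpace (Cp X) :=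
  TopologicalSpace.induced (fun (f : C(X, ℝ)) (x : X) => f x) Pi.topologicalSpace

/-- `C_p(X)` embeds in `C_p(W)`: there is a map which is a homeomorphism onto its image. -/
def CpEmbeds (X W : Type) [TopologicalSpace X] [TopologicalSpace W] : Prop :=
  ∃ φ : Cp X → Cp W, Topology.IsEmbedding φ

/-- The weight of `X` is at most `κ`: there is a base of cardinality at most `κ`. -/
def WeightLE (X : Type) [TopologicalSpace X] (κ : Cardinal.{0}) : Prop :=
  ∃ B : Set (Set X), TopologicalSpace.IsTopologicalBasis B ∧ #B ≤ κ

/-- No compact Hausdorff space of weight at most `κ` is `C_p`-universal for weight `κ`: for each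
compact Hausdorff space `W` of weight at most `κ` there is a compact Hausdorff space `X` of weight
at most `κ` such that `C_p(X)` does not embed in `C_p(W)`. -/
def NoCpUniversal (κ : Cardinal.{0}) : Prop :=
  ∀ (W : Type) [TopologicalSpace W] [CompactSpace W] [T2Space W], WeightLE W κ →
    ∃ (X : Type) (_ : TopologicalSpace X), CompactSpace X ∧ T2Space X ∧ WeightLE X κ ∧
      ¬ CpEmbeds X W

end Spaces

section Graphs

variable {K : Type}

/-- Any two different elements of `A` are joined by an edge of the graph `c`. -/
def Clique (c : Set (Sym2 K)) (A : Set K) : Prop := ∀ x ∈ A, ∀ y ∈ A, x ≠ y → s(x, y) ∈ c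

/-- No two different elements of `A` are joined by an edge of the graph `c`. -/
def Indep (c : Set (Sym2 K)) (A : Set K) : Prop := ∀ x ∈ A, ∀ y ∈ A, x ≠ y → s(x, y) ∉ c

/-- The graph principle for the set `K`: for all sets `H n N` of `N`-tuples of elements of `K`
(`n, N ∈ ℕ`) there is a graph `c` on `K` such that for all `n` and `q : K → K`: if there are finite
sets `A`, `B` such that `A` is a clique and `(q (x 0), …, q (x (N - 1)))` is in `H n N` for
all finite sequences `x` of elements of `K \ B` for which `A ∪ {x 0, …, x (N - 1)}` is a clique,
then there is an infinite independent set `I` such that `(q (x 0), …, q (x (N - 1)))` is in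
`H n N` for all finite sequences `x` of elements of `I`. -/
def GraphPrinciple (K : Type) : Prop :=
  ∀ H : ℕ → (N : ℕ) → Set (Fin N → K), ∃ c : Set (Sym2 K), ∀ (n : ℕ) (q : K → K),
    (∃ A B : Finset K, Clique c A ∧ ∀ (N : ℕ) (x : Fin N → K),
      (∀ i, x i ∉ B) ∧ Clique c (↑A ∪ Set.range x) → (fun i => q (x i)) ∈ H n N) →
    ∃ I : Set K, I.Infinite ∧ Indep c I ∧
      ∀ (N : ℕ) (x : Fin N → K), (∀ i, x i ∈ I) → (fun i => q (x i)) ∈ H n N

end Graphs

section Lang

universe v w

variable {P : Type} [Preorder P]

/-- `p` forces `not φ` iff no `q ≤ p` forces `φ`. -/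
def fnot (φ : Set P) : Set P := {p | ∀ q ≤ p, q ∉ φ}

/-- `p` forces `φ and ψ` iff it forces both. -/
def fand (φ ψ : Set P) : Set P := {p | p ∈ φ ∧ p ∈ ψ}

/-- `p` forces `for all i, φ i` iff it forces every `φ i`. -/
def fall {ι : Sort v} (φ : ι → Set P) : Set P := {p | ∀ i, p ∈ φ i}

/-- `φ implies ψ` is `not (φ and not ψ)`. -/
def fimp (φ ψ : Set P) : Set P := fnot (fand φ (fnot ψ))

/-- `there is i with φ i` is `not for all i, not φ i`. -/
def fex {ι : Sort v} (φ : ι → Set P) : Set P := fnot (fall fun i => fnot (φ i))

/-- An absolute statement about ground model objects. -/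
def fground (h : Prop) : Set P := {_p | h}

/-- `p` forces that the generic filter meets the set `N` of conditions:
the set of `r` lying below some member of `N` is dense below `p`. -/
def meets (N : Set P) : Set P := {p | ∀ q ≤ p, ∃ r ≤ q, ∃ s ∈ N, r ≤ s}

/-- The relation named by `R` is a function from `X` to `Y`. -/
def IsFun {X : Type v} {Y : Type w} (R : X → Y → Set P) : Set P :=
  fand (fall fun x => fex fun y => meets (R x y))
    (fall fun x => fall fun y => fall fun y' =>
      fimp (fand (meets (R x y)) (meets (R x y'))) (fground (y = y')))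

/-- the countable chain condition -/
def CCC (P : Type) [Preorder P] : Prop :=
  ∀ A : Set P, (∀ a ∈ A, ∀ b ∈ A, (∃ r, r ≤ a ∧ r ≤ b) → a = b) → A.Countable

end Lang

section Forced

variable {P : Type} [Preorder P] {K : Type}

/-- Any two different elements of the ground model set `A` are joined by an edge of the graph named
by `c`. -/
def FClique (c : Sym2 K → Set P) (A : Set K) : Set P :=
  fall fun x => fall fun _ : x ∈ A => fall fun y => fall fun _ : y ∈ A => fall fun _ : x ≠ y =>
    meets (c s(x, y))

/-- The set named by `I` is infinite: it is not contained in a finite set. -/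
def FInfinite (I : K → Set P) : Set P :=
  fall fun F : Finset K => fex fun x => fand (fground (x ∉ F)) (meets (I x))

/-- No two different elements of the set named by `I` are joined by an edge of the graph named
by `c`. -/
def FIndep (c : Sym2 K → Set P) (I : K → Set P) : Set P :=
  fall fun x => fall fun y => fimp (fand (meets (I x)) (meets (I y)))
    (fimp (fground (x ≠ y)) (fnot (meets (c s(x, y)))))

/-- The tuple `(q (x 0), …, q (x (N - 1)))` is in `H n N`. -/
def FIn (H : ℕ → (N : ℕ) → (Fin N → K) → Set P) (n : ℕ) (q : K → K → Set P) (N : ℕ)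
    (x : Fin N → K) : Set P :=
  fall fun a : Fin N → K => fimp (fall fun i => meets (q (x i) (a i))) (meets (H n N a))

variable (P K)

/-- The set of the conditions which force the graph principle for `K`. -/
def ForcesGraphPrinciple : Set P :=
  fall fun H : ℕ → (N : ℕ) → (Fin N → K) → Set P => fex fun c : Sym2 K → Set P =>
    fall fun n : ℕ => fall fun q : K → K → Set P => fimp (IsFun q) (fimp
      (fex fun A : Finset K => fex fun B : Finset K => fand (FClique c A)
        (fall fun N : ℕ => fall fun x : Fin N → K =>
          fimp (fand (fground (∀ i, x i ∉ B)) (FClique c (↑A ∪ Set.range x))) (FIn H n q N x)))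
      (fex fun I : K → Set P => fand (FInfinite I) (fand (FIndep c I)
        (fall fun N : ℕ => fall fun x : Fin N → K =>
          fimp (fall fun i => meets (I (x i))) (FIn H n q N x)))))

end Forced

end Pool.Agent.Helper161.Cpu
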