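import Mathlib
import Pool.Agent.Helper161.Cpu.Statement

/-!
# The graph principle implies that there are no `C_p`-universal compact spaces
-/

set_option autoImplicit false
set_option linter.unusedSectionVars false
set_option linter.unusedVariables false

namespace Pool.Agent.Helper161.Cpu

open Cardinal

section ZFC

open Topology Filter


theorem exists_dense (W : Type) [TopologicalSpace W] [CompactSpace W] [T2Space W] (K : Type)
    [Infinite K] (h : WeightLE W #K) :
    ∃ d : K → C(W, ℝ), ∀ (f : C(W, ℝ)) (ε : ℝ), 0 < ε → ∃ k, ∀ w, |f w - d k w| ≤ ε := by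
  classical
  obtain ⟨B, hB, hBK⟩ := h
  have hg : ∀ i : B × B, ∃ g : C(W, ℝ), closure (i.1 : Set W) ⊆ (i.2 : Set W) →
      (∀ x ∈ closure (i.1 : Set W), g x = 0) ∧ ∀ x, x ∉ (i.2 : Set W) → g x = 1 := by
    intro i
    by_cases hc : closure (i.1 : Set W) ⊆ (i.2 : Set W)
    · obtain ⟨f, h0, h1, _⟩ := exists_continuous_zero_one_of_isClosed
        (s := closure (i.1 : Set W)) (t := (i.2 : Set W)ᶜ) isClosed_closure
        (hB.isOpen i.2.2).isClosed_compl (Set.disjoint_compl_right_iff_subset.2 hc)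
      exact ⟨f, fun _ => ⟨fun x hx => h0 hx, fun x hx => h1 hx⟩⟩
    · exact ⟨0, fun h => absurd h hc⟩
  choose g hg using hg
  let φ : MvPolynomial (B × B) ℚ →+* C(W, ℝ) := MvPolynomial.eval₂Hom (algebraMap ℚ C(W, ℝ)) g
  let R : Subring C(W, ℝ) := φ.range.topologicalClosure
  have hφR : ∀ p, φ p ∈ R := fun p => φ.range.le_topologicalClosure ⟨p, rfl⟩
  have hconst : ∀ r : ℝ, algebraMap ℝ C(W, ℝ) r ∈ R := by
    intro r
    have hr : r ∈ closure (Set.range ((↑) : ℚ → ℝ)) := Rat.denseRange_cast r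
    have h1 : algebraMap ℝ C(W, ℝ) r ∈
        closure ((algebraMap ℝ C(W, ℝ)) '' (Set.range ((↑) : ℚ → ℝ))) :=
      image_closure_subset_closure_image (continuous_algebraMap ℝ C(W, ℝ)) ⟨r, hr, rfl⟩
    have h2 : (algebraMap ℝ C(W, ℝ)) '' (Set.range ((↑) : ℚ → ℝ)) ⊆ (φ.range : Set C(W, ℝ)) := by
      rintro _ ⟨_, ⟨q, rfl⟩, rfl⟩
      refine ⟨MvPolynomial.C q, ?_⟩
      show MvPolynomial.eval₂Hom (algebraMap ℚ C(W, ℝ)) g (MvPolynomial.C q) = _
      rw [MvPolynomial.coe_eval₂Hom, MvPolynomial.eval₂_C]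
      ext w
      simp
    exact closure_mono h2 h1
  let S : Subalgebra ℝ C(W, ℝ) := { R.toSubsemiring with algebraMap_mem' := hconst }
  have hSR : (S : Set C(W, ℝ)) = closure (φ.range : Set C(W, ℝ)) := rfl
  have hsep : S.SeparatesPoints := by
    intro x y hxy
    have hx1 : ({y}ᶜ : Set W) ∈ 𝓝 x := isOpen_compl_singleton.mem_nhds hxy
    obtain ⟨V, hVB, hxV, hVy⟩ := hB.mem_nhds_iff.1 hx1
    obtain ⟨U, hUB, hxU, hUV⟩ := hB.exists_closure_subset ((hB.isOpen hVB).mem_nhds hxV)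
    have hyV : y ∉ V := fun hy => hVy hy rfl
    refine ⟨g (⟨U, hUB⟩, ⟨V, hVB⟩), ⟨g (⟨U, hUB⟩, ⟨V, hVB⟩), ?_, rfl⟩, ?_⟩
    · have : φ (MvPolynomial.X (⟨U, hUB⟩, ⟨V, hVB⟩)) = g (⟨U, hUB⟩, ⟨V, hVB⟩) := by
        show MvPolynomial.eval₂Hom (algebraMap ℚ C(W, ℝ)) g (MvPolynomial.X _) = _
        rw [MvPolynomial.coe_eval₂Hom, MvPolynomial.eval₂_X]
      rw [← this]
      exact hφR _
    · obtain ⟨h0, h1⟩ := hg (⟨U, hUB⟩, ⟨V, hVB⟩) hUV
      show g (⟨U, hUB⟩, ⟨V, hVB⟩) x ≠ g (⟨U, hUB⟩, ⟨V, hVB⟩) y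
      rw [h0 x (subset_closure hxU), h1 y hyV]
      exact zero_ne_one
  have htop := ContinuousMap.subalgebra_topologicalClosure_eq_top_of_separatesPoints S hsep
  have hdense : ∀ f : C(W, ℝ), f ∈ closure (φ.range : Set C(W, ℝ)) := by
    intro f
    have h1 : f ∈ S.topologicalClosure := by rw [htop]; exact Algebra.mem_top
    have h2 : f ∈ closure (S : Set C(W, ℝ)) := h1
    rw [hSR, closure_closure] at h2
    exact h2
  have hcard : #(MvPolynomial (B × B) ℚ) ≤ #K := by
    have hK : ℵ₀ ≤ #K := Cardinal.aleph0_le_mk K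
    refine MvPolynomial.cardinalMk_le_max.trans ?_
    refine max_le (max_le ?_ ?_) hK
    · rw [Cardinal.mkRat]; exact hK
    · rw [Cardinal.mk_prod, Cardinal.lift_id]
      calc #B * #B ≤ #K * #K := mul_le_mul' hBK hBK
        _ = #K := Cardinal.mul_eq_self hK
  obtain ⟨e⟩ := (Cardinal.le_def _ _).1 hcard
  refine ⟨fun k => φ (Function.invFun e k), ?_⟩
  intro f ε hε
  obtain ⟨_, ⟨p, rfl⟩, hp⟩ := Metric.mem_closure_iff.1 (hdense f) ε hε
  obtain ⟨k, hk⟩ := Function.invFun_surjective e.injective p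
  refine ⟨k, fun w => ?_⟩
  show |f w - φ (Function.invFun e k) w| ≤ ε
  rw [hk]
  have h1 : dist (f w) (φ p w) ≤ dist f (φ p) := ContinuousMap.dist_apply_le_dist w
  rw [Real.dist_eq] at h1
  linarith


theorem baire_step (X W : Type) [TopologicalSpace X] [CompactSpace X] [T2Space X] [Nonempty X]
    [TopologicalSpace W] [CompactSpace W] (ψ : C(X, ℝ) → C(W, ℝ))
    (h : ∀ x : X, ∃ (n : ℕ) (w : Fin n → W), ∀ f : C(X, ℝ),
      (∀ i, |ψ f (w i)| < 1 / ((n : ℝ) + 1)) → |f x| ≤ 1 / 2) :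
    ∃ (n : ℕ) (U : Set X), IsOpen U ∧ U.Nonempty ∧ ∀ x ∈ U, ∃ w : Fin n → W, ∀ f : C(X, ℝ),
      (∀ i, |ψ f (w i)| < 1 / ((n : ℝ) + 1)) → |f x| ≤ 1 / 2 := by
  classical
  let Z : (n : ℕ) → Set (X × (Fin n → W)) := fun n =>
    {q | ∀ f : C(X, ℝ), (∃ i, 1 / ((n : ℝ) + 1) ≤ |ψ f (q.2 i)|) ∨ |f q.1| ≤ 1 / 2}
  have hZ : ∀ n, IsClosed (Z n) := by
    intro n
    have h1 : Z n = ⋂ f : C(X, ℝ), ((⋃ i : Fin n, {q : X × (Fin n → W) |
        1 / ((n : ℝ) + 1) ≤ |ψ f (q.2 i)|}) ∪ {q : X × (Fin n → W) | |f q.1| ≤ 1 / 2}) := by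
      ext q
      simp only [Z, Set.mem_ofPred_eq, Set.mem_iInter, Set.mem_union, Set.mem_iUnion]
    rw [h1]
    refine isClosed_iInter fun f => ?_
    refine IsClosed.union (isClosed_iUnion_of_finite fun i => ?_) ?_
    · refine isClosed_le continuous_const ?_
      exact ((ψ f).continuous.comp ((continuous_apply i).comp continuous_snd)).abs
    · exact isClosed_le ((f.continuous.comp continuous_fst).abs) continuous_const
  have hcl : ∀ n, IsClosed (Prod.fst '' Z n) := fun n =>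
    isClosedMap_fst_of_compactSpace _ (hZ n)
  have hcov : (⋃ n, Prod.fst '' Z n) = Set.univ := by
    refine Set.eq_univ_of_forall fun x => ?_
    obtain ⟨n, w, hw⟩ := h x
    rw [Set.mem_iUnion]
    refine ⟨n, (x, w), fun f => ?_, rfl⟩
    by_cases hf : ∃ i, 1 / ((n : ℝ) + 1) ≤ |ψ f (w i)|
    · exact Or.inl hf
    · push Not at hf
      exact Or.inr (hw f hf)
  obtain ⟨n, hn⟩ := nonempty_interior_of_iUnion_of_closed hcl hcov
  refine ⟨n, interior (Prod.fst '' Z n), isOpen_interior, hn, fun x hx => ?_⟩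
  obtain ⟨⟨x', w⟩, hq, rfl⟩ := interior_subset hx
  refine ⟨w, fun f hf => ?_⟩
  rcases hq f with ⟨i, hi⟩ | h2
  · exact absurd (hf i) (not_lt.2 hi)
  · exact h2

theorem embed_step_aux (X W : Type) [TopologicalSpace X] [TopologicalSpace W]
    (φ : C(X, ℝ) → C(W, ℝ)) (hφ : Topology.IsEmbedding (X := Cp X) (Y := Cp W) φ) (x : X) :
    ∃ (I : Finset W) (δ : ℝ), 0 < δ ∧ ∀ f : C(X, ℝ),
      (∀ i ∈ I, |φ f i - φ 0 i| < δ) → |f x| ≤ 1 / 2 := by
  classical
  let cX : Cp X → (X → ℝ) := fun (f : C(X, ℝ)) x => f x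
  let cW : Cp W → (W → ℝ) := fun (f : C(W, ℝ)) x => f x
  have hX : IsInducing cX := ⟨rfl⟩
  have hW : IsInducing cW := ⟨rfl⟩
  have hc : IsInducing (fun f : Cp X => cW (φ f)) := hW.comp hφ.isInducing
  let z : Cp X := (0 : C(X, ℝ))
  have h1 : cX ⁻¹' {g : X → ℝ | |g x| < 1 / 2} ∈ 𝓝 z := by
    have hcont : Continuous (fun g : X → ℝ => |g x|) := (continuous_apply x).abs
    have hop : IsOpen {g : X → ℝ | |g x| < 1 / 2} := isOpen_lt hcont continuous_const
    refine (hop.preimage hX.continuous).mem_nhds ?_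
    change |(0 : C(X, ℝ)) x| < 1 / 2
    simp
  rw [hc.nhds_eq_comap, Filter.mem_comap] at h1
  obtain ⟨V, hV, hVs⟩ := h1
  rw [nhds_pi, Filter.mem_pi] at hV
  obtain ⟨I, hI, t, ht, hsub⟩ := hV
  have hδ : ∀ i : W, ∃ δ : ℝ, 0 < δ ∧ Metric.ball (φ 0 i) δ ⊆ t i := fun i =>
    Metric.mem_nhds_iff.1 (ht i)
  choose δ hδ0 hδ using hδ
  have hmin : ∃ δ0 : ℝ, 0 < δ0 ∧ ∀ i ∈ hI.toFinset, δ0 ≤ δ i := by
    rcases hI.toFinset.eq_empty_or_nonempty with h0 | h0
    · exact ⟨1, one_pos, fun i hi => by rw [h0] at hi; simp at hi⟩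
    · obtain ⟨j, hj, hjm⟩ := hI.toFinset.exists_min_image δ h0
      exact ⟨δ j, hδ0 j, hjm⟩
  obtain ⟨δ0, h0, hle⟩ := hmin
  refine ⟨hI.toFinset, δ0, h0, fun f hf => ?_⟩
  have hmem : f ∈ cX ⁻¹' {g : X → ℝ | |g x| < 1 / 2} := by
    apply hVs
    change (fun w => φ f w) ∈ V
    apply hsub
    intro i hi
    apply hδ i
    rw [Metric.mem_ball, Real.dist_eq]
    have hi' : i ∈ hI.toFinset := hI.mem_toFinset.2 hi
    exact (hf i hi').trans_le (hle i hi')
  have h3 : |f x| < 1 / 2 := hmem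
  exact h3.le


theorem embed_step (X W : Type) [TopologicalSpace X] [TopologicalSpace W]
    (φ : C(X, ℝ) → C(W, ℝ)) (hφ : Topology.IsEmbedding (X := Cp X) (Y := Cp W) φ) (x : X) :
    ∃ (n : ℕ) (w : Fin n → W), ∀ f : C(X, ℝ),
      (∀ i, |(φ f - φ 0) (w i)| < 1 / ((n : ℝ) + 1)) → |f x| ≤ 1 / 2 := by
  classical
  obtain ⟨I, δ, hδ, h⟩ := embed_step_aux X W φ hφ x
  rcases I.eq_empty_or_nonempty with hI | ⟨i0, hi0⟩
  · refine ⟨0, fun k => k.elim0, fun f _ => h f fun i hi => ?_⟩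
    rw [hI] at hi
    simp at hi
  · obtain ⟨N, hN⟩ := exists_nat_one_div_lt hδ
    refine ⟨max I.card N, fun k => I.toList.getD k.1 i0, fun f hf => h f fun i hi => ?_⟩
    have hi' : i ∈ I.toList := Finset.mem_toList.2 hi
    obtain ⟨k, hk, hki⟩ := List.getElem_of_mem hi'
    have hk2 : k < max I.card N := by
      rw [Finset.length_toList] at hk
      exact lt_of_lt_of_le hk (le_max_left _ _)
    have h1 := hf ⟨k, hk2⟩
    have h2 : I.toList.getD k i0 = i := by
      rw [List.getD_eq_getElem _ _ hk, hki]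
    change |(φ f - φ 0) (I.toList.getD k i0)| < _ at h1
    rw [h2] at h1
    have h3 : |φ f i - φ 0 i| < 1 / (((max I.card N : ℕ) : ℝ) + 1) := h1
    refine h3.trans_le ?_
    refine le_trans ?_ hN.le
    apply one_div_le_one_div_of_le (by positivity)
    have : (N : ℝ) ≤ ((max I.card N : ℕ) : ℝ) := by
      exact_mod_cast le_max_right I.card N
    linarith

theorem contin_step (X W : Type) [TopologicalSpace X] [TopologicalSpace W]
    (φ : C(X, ℝ) → C(W, ℝ)) (hφ : @Continuous (Cp X) (Cp W) _ _ φ) (f : ℕ → C(X, ℝ))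
    (hf : ∀ x, Tendsto (fun i => f i x) atTop (𝓝 0)) (w : W) :
    Tendsto (fun i => (φ (f i) - φ 0) w) atTop (𝓝 0) := by
  have hX : Topology.IsInducing (fun (f : Cp X) (x : X) => (show C(X, ℝ) from f) x) := ⟨rfl⟩
  have hW : Topology.IsInducing (fun (f : Cp W) (x : W) => (show C(W, ℝ) from f) x) := ⟨rfl⟩
  have h1 : Tendsto (α := ℕ) (β := Cp X) (fun i => f i) atTop (@nhds (Cp X) _ (0 : C(X, ℝ))) :=
    hX.tendsto_nhds_iff.mpr (tendsto_pi_nhds.mpr hf)
  have h2 := (hφ.tendsto (0 : C(X, ℝ))).comp h1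
  have h3 : Tendsto (fun i => φ (f i) w) atTop (𝓝 (φ 0 w)) :=
    tendsto_pi_nhds.mp (hW.tendsto_nhds_iff.mp h2) w
  have h4 := h3.sub_const (φ 0 w)
  simpa using h4

/-- the cone generated by the multisets `μ i`, `i ≥ n` -/
def kelley_C (μ : ℕ → Multiset ℕ) (n : ℕ) : AddSubmonoid (Multiset ℕ) :=
  AddSubmonoid.closure (μ '' {i | n ≤ i})

/-- number of elements of the multiset in `F` -/
def kelley_cnt (F : Finset ℕ) (ν : Multiset ℕ) : ℕ := ν.countP (fun a => a ∈ F)

/-- a sequence of nonzero multisets, pairwise disjoint -/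
def kelley_ok (μ : ℕ → Multiset ℕ) : Prop :=
  (∀ i, μ i ≠ 0) ∧ ∀ i j, i ≠ j → ∀ a ∈ μ i, a ∉ μ j

/-- small combinations of all block sequences exist -/
def kelley_Q (T : Set (Finset ℕ)) : Prop :=
  ∀ μ : ℕ → Multiset ℕ, kelley_ok μ → ∀ K : ℕ, ∃ ν ∈ kelley_C μ 0, ν ≠ 0 ∧
    ∀ F ∈ T, K * kelley_cnt F ν ≤ Multiset.card ν

theorem kelley_cnt_add (F : Finset ℕ) (ν ρ : Multiset ℕ) :
    kelley_cnt F (ν + ρ) = kelley_cnt F ν + kelley_cnt F ρ := Multiset.countP_add _ _ _

theorem kelley_cnt_nsmul (F : Finset ℕ) (c : ℕ) (ν : Multiset ℕ) :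
    kelley_cnt F (c • ν) = c * kelley_cnt F ν := by
  induction c with
  | zero => rw [zero_nsmul, zero_mul]; rfl
  | succ c ih => rw [succ_nsmul, kelley_cnt_add, ih]; ring

theorem kelley_C_mono (μ : ℕ → Multiset ℕ) {n n' : ℕ} (h : n ≤ n') :
    kelley_C μ n' ≤ kelley_C μ n :=
  AddSubmonoid.closure_mono (Set.image_mono (fun _ hi => h.trans hi))

theorem kelley_C_mem {μ : ℕ → Multiset ℕ} {n : ℕ} {ν : Multiset ℕ} (h : ν ∈ kelley_C μ n) :
    ∀ a ∈ ν, ∃ i, n ≤ i ∧ a ∈ μ i := by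
  unfold kelley_C at h
  induction h using AddSubmonoid.closure_induction with
  | mem x hx =>
    obtain ⟨i, hi, rfl⟩ := hx
    intro a ha
    exact ⟨i, hi, ha⟩
  | zero => intro a ha; exact absurd ha (Multiset.notMem_zero a)
  | add x y _ _ hx hy =>
    intro a ha
    rcases Multiset.mem_add.1 ha with h | h
    · exact hx a h
    · exact hy a h

theorem kelley_avoid {μ : ℕ → Multiset ℕ} (hμ : kelley_ok μ) (S : Finset ℕ) :
    ∃ n, ∀ i, n ≤ i → ∀ a ∈ μ i, a ∉ S := by
  classical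
  induction S using Finset.induction_on with
  | empty => exact ⟨0, fun i _ a _ => Finset.notMem_empty a⟩
  | insert b S _ ih =>
    obtain ⟨n, hn⟩ := ih
    by_cases hb : ∃ i, b ∈ μ i
    · obtain ⟨i0, hi0⟩ := hb
      refine ⟨max n (i0 + 1), fun i hi a ha => ?_⟩
      rw [Finset.mem_insert]
      rintro (rfl | h)
      · have h1 : i0 ≠ i := by
          have := (le_max_right n (i0 + 1)).trans hi
          omega
        exact hμ.2 i0 i h1 a hi0 ha
      · exact hn i ((le_max_left _ _).trans hi) a ha h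
    · refine ⟨n, fun i hi a ha => ?_⟩
      rw [Finset.mem_insert]
      rintro (rfl | h)
      · exact hb ⟨i, ha⟩
      · exact hn i hi a ha h

theorem kelley_avoid_C {μ : ℕ → Multiset ℕ} (hμ : kelley_ok μ) (S : Finset ℕ) :
    ∃ n, ∀ ν ∈ kelley_C μ n, ∀ a ∈ ν, a ∉ S := by
  obtain ⟨n, hn⟩ := kelley_avoid hμ S
  refine ⟨n, fun ν hν a ha => ?_⟩
  obtain ⟨i, hi, h⟩ := kelley_C_mem hν a ha
  exact hn i hi a h

theorem kelley_tail {T : Set (Finset ℕ)} (hT : kelley_Q T) {μ : ℕ → Multiset ℕ}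
    (hμ : kelley_ok μ) (n K : ℕ) : ∃ ν ∈ kelley_C μ n, ν ≠ 0 ∧
      ∀ F ∈ T, K * kelley_cnt F ν ≤ Multiset.card ν := by
  obtain ⟨ν, hν, h1, h2⟩ := hT (fun i => μ (n + i))
    ⟨fun i => hμ.1 _, fun i j hij a ha => hμ.2 _ _ (by omega) a ha⟩ K
  refine ⟨ν, ?_, h1, h2⟩
  refine (AddSubmonoid.closure_mono ?_ : kelley_C (fun i => μ (n + i)) 0 ≤ kelley_C μ n) hν
  rintro _ ⟨i, _, rfl⟩
  exact ⟨n + i, Nat.le_add_right n i, rfl⟩

theorem kelley_union {T T' : Set (Finset ℕ)} (hT : kelley_Q T) (hT' : kelley_Q T') :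
    kelley_Q (T ∪ T') := by
  classical
  intro μ hμ K
  -- block sequence
  have h1 : ∀ n, ∃ ν ∈ kelley_C μ n, ν ≠ 0 ∧ ∀ F ∈ T, K * kelley_cnt F ν ≤ Multiset.card ν :=
    fun n => kelley_tail hT hμ n K
  choose lam hlam1 hlam2 hlam3 using h1
  have h2 : ∀ n, ∃ n', n < n' ∧ ∀ ν ∈ kelley_C μ n', ∀ a ∈ ν, a ∉ (lam n).toFinset := by
    intro n
    obtain ⟨n', hn'⟩ := kelley_avoid_C hμ (lam n).toFinset
    exact ⟨max n' (n + 1), by have := le_max_right n' (n + 1); omega,
      fun ν hν => hn' ν (kelley_C_mono μ (le_max_left _ _) hν)⟩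
  choose nx hnx1 hnx2 using h2
  let s : ℕ → ℕ := fun j => Nat.rec 0 (fun _ n => nx n) j
  have hs : ∀ j, s (j + 1) = nx (s j) := fun j => rfl
  have hmono : StrictMono s := strictMono_nat_of_lt_succ (fun j => by rw [hs]; exact hnx1 _)
  have hdis : ∀ i j, i < j → ∀ a ∈ lam (s j), a ∉ lam (s i) := by
    intro i j hij a ha h
    have h3 : nx (s i) ≤ s j := by
      rw [← hs]
      exact hmono.monotone hij
    exact hnx2 (s i) (lam (s j)) (kelley_C_mono μ h3 (hlam1 _)) a ha
      (Multiset.mem_toFinset.2 h)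
  obtain ⟨ν, hν, hν0, hν1⟩ := hT' (fun j => lam (s j))
    ⟨fun j => hlam2 _, fun i j hij a ha h => by
      rcases lt_or_gt_of_ne hij with h3 | h3
      · exact hdis i j h3 a h ha
      · exact hdis j i h3 a ha h⟩ K
  have hle : kelley_C (fun j => lam (s j)) 0 ≤ kelley_C μ 0 := by
    unfold kelley_C
    rw [AddSubmonoid.closure_le]
    rintro _ ⟨j, _, rfl⟩
    exact kelley_C_mono μ (Nat.zero_le _) (hlam1 (s j))
  refine ⟨ν, hle hν, hν0, ?_⟩
  rintro F (hF | hF)
  · unfold kelley_C at hν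
    clear hν0 hν1
    induction hν using AddSubmonoid.closure_induction with
    | mem x hx =>
      obtain ⟨j, _, rfl⟩ := hx
      exact hlam3 _ F hF
    | zero =>
      have : kelley_cnt F 0 = 0 := rfl
      rw [this, mul_zero]
      exact Nat.zero_le _
    | add x y _ _ hx hy =>
      rw [kelley_cnt_add, Multiset.card_add, mul_add]
      exact add_le_add hx hy
  · exact hν1 F hF

theorem kelley_empty : kelley_Q ∅ := by
  intro μ hμ K
  exact ⟨μ 0, AddSubmonoid.subset_closure ⟨0, Nat.zero_le _, rfl⟩, hμ.1 0,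
    fun F hF => absurd hF (Set.notMem_empty F)⟩

theorem kelley_biUnion (T : ℕ → Set (Finset ℕ)) (S : Finset ℕ) (h : ∀ n ∈ S, kelley_Q (T n)) :
    kelley_Q {F | ∃ n ∈ S, F ∈ T n} := by
  classical
  induction S using Finset.induction_on with
  | empty =>
    have : {F | ∃ n ∈ (∅ : Finset ℕ), F ∈ T n} = (∅ : Set (Finset ℕ)) := by
      ext F
      simp
    rw [this]
    exact kelley_empty
  | insert b S _ ih =>
    have : {F | ∃ n ∈ insert b S, F ∈ T n} = T b ∪ {F | ∃ n ∈ S, F ∈ T n} := by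
      ext F
      simp
    rw [this]
    exact kelley_union (h b (Finset.mem_insert_self _ _))
      (ih (fun n hn => h n (Finset.mem_insert_of_mem hn)))

theorem kelley_step (T : Set (Finset ℕ)) (S₀ : Finset ℕ)
    (h : ∀ n, n ∉ S₀ → kelley_Q {F | F ∈ T ∧ n ∈ F}) : kelley_Q T := by
  classical
  intro μ hμ K
  obtain ⟨n₀, hn₀⟩ := kelley_avoid_C hμ S₀
  have key : ∀ k : ℕ, ∃ ν ∈ kelley_C μ n₀, ∃ M : ℕ, 0 < M ∧ Multiset.card ν = k * M ∧
      ∀ F ∈ T, (2 * K) * kelley_cnt F ν ≤ 2 * K * M + k * M := by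
    intro k
    induction k with
    | zero =>
      refine ⟨0, AddSubmonoid.zero_mem _, 1, one_pos, by simp, fun F _ => ?_⟩
      have : kelley_cnt F 0 = 0 := rfl
      rw [this, mul_zero]
      exact Nat.zero_le _
    | succ k ih =>
      obtain ⟨ν, hν, M, hM, hcard, hF⟩ := ih
      have hQ := kelley_biUnion (fun n => {F | F ∈ T ∧ n ∈ F}) ν.toFinset
        (fun n hn => h n (hn₀ ν hν n (Multiset.mem_toFinset.1 hn)))
      obtain ⟨lam, hlam, hlam0, hlam1⟩ := kelley_tail hQ hμ n₀ (2 * K)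
      have hcl : 0 < Multiset.card lam := Multiset.card_pos.2 hlam0
      refine ⟨Multiset.card lam • ν + M • lam,
        AddSubmonoid.add_mem _ (AddSubmonoid.nsmul_mem _ hν _)
          (AddSubmonoid.nsmul_mem _ hlam _), M * Multiset.card lam, Nat.mul_pos hM hcl, ?_, ?_⟩
      · rw [Multiset.card_add, Multiset.card_nsmul, Multiset.card_nsmul, hcard]
        ring
      · intro F hFT
        rw [kelley_cnt_add, kelley_cnt_nsmul, kelley_cnt_nsmul]
        by_cases hm : ∃ n ∈ ν.toFinset, n ∈ F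
        · obtain ⟨n, hn, hnF⟩ := hm
          have h1 := hlam1 F ⟨n, hn, hFT, hnF⟩
          have h2 := hF F hFT
          have h3 : M * ((2 * K) * kelley_cnt F lam) ≤ M * Multiset.card lam :=
            Nat.mul_le_mul_left _ h1
          have h4 : Multiset.card lam * ((2 * K) * kelley_cnt F ν) ≤
              Multiset.card lam * (2 * K * M + k * M) := Nat.mul_le_mul_left _ h2
          calc 2 * K * (Multiset.card lam * kelley_cnt F ν + M * kelley_cnt F lam)
              = Multiset.card lam * ((2 * K) * kelley_cnt F ν) +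
                M * ((2 * K) * kelley_cnt F lam) := by ring
            _ ≤ Multiset.card lam * (2 * K * M + k * M) + M * Multiset.card lam :=
                add_le_add h4 h3
            _ = 2 * K * (M * Multiset.card lam) + (k + 1) * (M * Multiset.card lam) := by ring
        · push Not at hm
          have h1 : kelley_cnt F ν = 0 := by
            unfold kelley_cnt
            rw [Multiset.countP_eq_zero]
            intro a ha
            exact hm a (Multiset.mem_toFinset.2 ha)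
          have h2 : kelley_cnt F lam ≤ Multiset.card lam := Multiset.countP_le_card _ _
          rw [h1, mul_zero, zero_add]
          have h3 : 2 * K * (M * kelley_cnt F lam) ≤ 2 * K * (M * Multiset.card lam) :=
            Nat.mul_le_mul_left _ (Nat.mul_le_mul_left _ h2)
          exact h3.trans (Nat.le_add_right _ _)
  rcases Nat.eq_zero_or_pos K with hK | hK
  · subst hK
    refine ⟨μ 0, AddSubmonoid.subset_closure ⟨0, Nat.zero_le _, rfl⟩, hμ.1 0, fun F _ => ?_⟩
    rw [zero_mul]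
    exact Nat.zero_le _
  · obtain ⟨ν, hν, M, hM, hcard, hF⟩ := key (2 * K)
    refine ⟨ν, kelley_C_mono μ (Nat.zero_le _) hν, ?_, fun F hFT => ?_⟩
    · rw [← Multiset.card_pos, hcard]
      positivity
    · rw [hcard]
      have h1 := hF F hFT
      have h2 : 2 * (K * kelley_cnt F ν) ≤ 2 * (2 * K * M) := by
        calc 2 * (K * kelley_cnt F ν) = 2 * K * kelley_cnt F ν := by ring
          _ ≤ 2 * K * M + 2 * K * M := h1
          _ = 2 * (2 * K * M) := by ring
      omega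

theorem kelley_rep (ν : Multiset ℕ) : ∃ (N : ℕ) (x : Fin N → ℕ),
    Multiset.map x (Finset.univ : Finset (Fin N)).val = ν := by
  induction ν using Quotient.inductionOn with
  | h l =>
    refine ⟨l.length, l.get, ?_⟩
    rw [Fin.univ_val_map, List.ofFn_get]
    rfl


theorem kelley (W : Type) [TopologicalSpace W] [CompactSpace W] (A : ℕ → Set W)
    (hA : ∀ i, IsClosed (A i)) (m : ℕ)
    (h : ∀ (N : ℕ) (x : Fin N → ℕ), ∃ w : W, ∃ J : Finset (Fin N), (∀ j ∈ J, w ∈ A (x j)) ∧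
      N ≤ m * J.card) :
    ∃ w : W, {i | w ∈ A i}.Infinite := by
  classical
  let G : Finset ℕ → Set (Finset ℕ) := fun S => {F | (⋂ i ∈ F, A i).Nonempty ∧ S ⊆ F}
  have h0 : ¬ kelley_Q (G ∅) := by
    intro hQ
    obtain ⟨ν, -, hν0, hν1⟩ := hQ (fun i => {i}) ⟨fun i => Multiset.singleton_ne_zero i,
      fun i j hij a ha ha' => by
        rw [Multiset.mem_singleton] at ha ha'
        exact hij (ha.symm.trans ha')⟩ (m + 1)
    obtain ⟨N, x, rfl⟩ := kelley_rep ν
    obtain ⟨w, J, hJ, hN⟩ := h N x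
    have hF : J.image x ∈ G ∅ := by
      refine ⟨⟨w, ?_⟩, Finset.empty_subset _⟩
      rw [Set.mem_iInter₂]
      intro i hi
      obtain ⟨j, hj, rfl⟩ := Finset.mem_image.1 hi
      exact hJ j hj
    have h1 := hν1 _ hF
    have hcard : Multiset.card (Multiset.map x (Finset.univ : Finset (Fin N)).val) = N := by
      rw [Multiset.card_map, Finset.card_val, Finset.card_univ, Fintype.card_fin]
    have hJc : J.card ≤ kelley_cnt (J.image x)
        (Multiset.map x (Finset.univ : Finset (Fin N)).val) := by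
      unfold kelley_cnt
      rw [Multiset.countP_map]
      have : J ⊆ Finset.univ.filter (fun j => x j ∈ J.image x) := by
        intro j hj
        exact Finset.mem_filter.2 ⟨Finset.mem_univ _, Finset.mem_image_of_mem x hj⟩
      exact Finset.card_le_card this
    rw [hcard] at h1
    have hNpos : 0 < N := by
      rw [← hcard]
      exact Multiset.card_pos.2 hν0
    have h2 : m * J.card ≤ m * kelley_cnt (J.image x)
        (Multiset.map x (Finset.univ : Finset (Fin N)).val) := Nat.mul_le_mul_left _ hJc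
    rw [add_mul, one_mul] at h1
    have h3 : kelley_cnt (J.image x)
        (Multiset.map x (Finset.univ : Finset (Fin N)).val) = 0 := by omega
    rw [h3] at h2
    omega
  have hstep : ∀ S : Finset ℕ, ¬ kelley_Q (G S) → ∃ n, n ∉ S ∧ ¬ kelley_Q (G (insert n S)) := by
    intro S hS
    by_contra hcon
    push Not at hcon
    apply hS
    refine kelley_step (G S) S (fun n hn => ?_)
    have h1 : {F | F ∈ G S ∧ n ∈ F} = G (insert n S) := by
      ext F
      constructor
      · rintro ⟨⟨h2, h3⟩, h4⟩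
        exact ⟨h2, Finset.insert_subset h4 h3⟩
      · rintro ⟨h2, h3⟩
        exact ⟨⟨h2, (Finset.subset_insert _ _).trans h3⟩, h3 (Finset.mem_insert_self _ _)⟩
    rw [h1]
    exact hcon n hn
  choose! nx hnx1 hnx2 using hstep
  let s : ℕ → Finset ℕ := fun k => Nat.rec ∅ (fun _ S => insert (nx S) S) k
  have hs : ∀ k, s (k + 1) = insert (nx (s k)) (s k) := fun k => rfl
  have hsQ : ∀ k, ¬ kelley_Q (G (s k)) := by
    intro k
    induction k with
    | zero => exact h0
    | succ k ih =>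
      rw [hs]
      exact hnx2 _ ih
  have hscard : ∀ k, (s k).card = k := by
    intro k
    induction k with
    | zero => rfl
    | succ k ih =>
      rw [hs, Finset.card_insert_of_notMem (hnx1 _ (hsQ k)), ih]
  have hsne : ∀ k, (⋂ i ∈ s k, A i).Nonempty := by
    intro k
    have h1 : (G (s k)).Nonempty := by
      rw [Set.nonempty_iff_ne_empty]
      intro h2
      apply hsQ k
      rw [h2]
      exact kelley_empty
    obtain ⟨F, ⟨w, hw⟩, hF2⟩ := h1
    refine ⟨w, ?_⟩
    rw [Set.mem_iInter₂] at hw ⊢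
    exact fun i hi => hw i (hF2 hi)
  have hcl : ∀ k, IsClosed (⋂ i ∈ s k, A i) :=
    fun k => isClosed_biInter (fun i _ => hA i)
  obtain ⟨w, hw⟩ := IsCompact.nonempty_iInter_of_sequence_nonempty_isCompact_isClosed
    (fun k => ⋂ i ∈ s k, A i)
    (fun k => Set.biInter_subset_biInter_left (by
      intro i hi
      rw [hs]
      exact Finset.mem_insert_of_mem hi))
    hsne (hcl 0).isCompact hcl
  refine ⟨w, fun hfin => ?_⟩
  have h1 : s (hfin.toFinset.card + 1) ⊆ hfin.toFinset := by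
    intro i hi
    rw [Set.Finite.mem_toFinset]
    have h2 := Set.mem_iInter.1 hw (hfin.toFinset.card + 1)
    exact Set.mem_iInter₂.1 h2 i hi
  have h2 := Finset.card_le_card h1
  have h3 := hscard (hfin.toFinset.card + 1)
  omega

/-- The space of the cliques of the graph `c`, a closed subspace of `{0,1}^K`. -/
def CliqueSp {K : Type} (c : Set (Sym2 K)) : Type :=
  {x : K → Bool // ∀ a b, a ≠ b → x a = true → x b = true → s(a, b) ∈ c}

instance {K : Type} (c : Set (Sym2 K)) : TopologicalSpace (CliqueSp c) :=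
  inferInstanceAs (TopologicalSpace {x : K → Bool // ∀ a b, a ≠ b → x a = true → x b = true → s(a, b) ∈ c})

theorem cliqueSp_isClosed {K : Type} (c : Set (Sym2 K)) :
    IsClosed {x : K → Bool | ∀ a b, a ≠ b → x a = true → x b = true → s(a, b) ∈ c} := by
  have e : {x : K → Bool | ∀ a b, a ≠ b → x a = true → x b = true → s(a, b) ∈ c} =
      ⋂ a : K, ⋂ b : K, {x : K → Bool | a ≠ b → x a = true → x b = true → s(a, b) ∈ c} := by
    ext x
    simp only [Set.mem_ofPred_eq, Set.mem_iInter]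
  rw [e]
  apply isClosed_iInter
  intro a
  apply isClosed_iInter
  intro b
  have h1 : Continuous fun x : K → Bool => (x a, x b) :=
    (continuous_apply a).prodMk (continuous_apply b)
  have h2 : IsClosed {y : Bool × Bool | a ≠ b → y.1 = true → y.2 = true → s(a, b) ∈ c} :=
    isClosed_discrete _
  exact h2.preimage h1

/-- basic open sets -/
def cliqueSpB {K : Type} (c : Set (Sym2 K)) (p : Finset (K × Bool)) : Set (CliqueSp c) :=
  {x | ∀ q ∈ p, x.1 q.1 = q.2}

theorem cliqueSp_val_cont {K : Type} (c : Set (Sym2 K)) (k : K) :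
    Continuous fun x : CliqueSp c => x.1 k :=
  (continuous_apply k).comp continuous_subtype_val

theorem cliqueSpB_basis {K : Type} (c : Set (Sym2 K)) :
    TopologicalSpace.IsTopologicalBasis (Set.range (cliqueSpB c)) := by
  classical
  apply TopologicalSpace.isTopologicalBasis_of_isOpen_of_nhds
  · rintro _ ⟨p, rfl⟩
    have e : cliqueSpB c p = ⋂ q ∈ p, {x : CliqueSp c | x.1 q.1 = q.2} := by
      ext x
      simp only [cliqueSpB, Set.mem_ofPred_eq, Set.mem_iInter]
    rw [e]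
    apply isOpen_biInter_finset
    intro q _
    have h2 : IsOpen {y : Bool | y = q.2} := isOpen_discrete _
    exact h2.preimage (cliqueSp_val_cont c q.1)
  · intro a u ha hu
    obtain ⟨V, hV, rfl⟩ := isOpen_induced_iff.mp hu
    obtain ⟨I, w, hw, hIw⟩ := isOpen_pi_iff.mp hV a.1 ha
    refine ⟨_, ⟨I.image (fun k => (k, a.1 k)), rfl⟩, ?_, ?_⟩
    · intro q hq
      obtain ⟨k, _, rfl⟩ := Finset.mem_image.mp hq
      rfl
    · intro x hx
      apply hIw
      intro k hk
      have h1 : x.1 k = a.1 k := hx (k, a.1 k) (Finset.mem_image.mpr ⟨k, hk, rfl⟩)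
      rw [h1]
      exact (hw k hk).2


theorem cliqueSp_props {K : Type} [Infinite K] (c : Set (Sym2 K)) :
    CompactSpace (CliqueSp c) ∧ T2Space (CliqueSp c) ∧ Nonempty (CliqueSp c) ∧
      WeightLE (CliqueSp c) #K := by
  refine ⟨?_, ?_, ?_, ?_⟩
  · exact isCompact_iff_compactSpace.mp (cliqueSp_isClosed c).isCompact
  · exact inferInstanceAs (T2Space {x : K → Bool // ∀ a b, a ≠ b → x a = true → x b = true → s(a, b) ∈ c})
  · exact ⟨⟨fun _ => false, fun a b _ h => absurd h (by simp)⟩⟩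
  · refine ⟨Set.range (cliqueSpB c), cliqueSpB_basis c, ?_⟩
    refine Cardinal.mk_range_le.trans ?_
    rw [Cardinal.mk_finset_of_infinite, Cardinal.mk_prod, Cardinal.lift_id, Cardinal.lift_id]
    apply le_of_eq
    apply Cardinal.mul_eq_left (Cardinal.aleph0_le_mk K)
    · exact (Cardinal.mk_lt_aleph0.le).trans (Cardinal.aleph0_le_mk K)
    · exact Cardinal.mk_ne_zero _


theorem clique_open {K : Type} (c : Set (Sym2 K)) (U : Set (CliqueSp c)) (hU : IsOpen U)
    (hne : U.Nonempty) :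
    ∃ A B : Finset K, Disjoint A B ∧ Clique c (A : Set K) ∧ ∀ x : CliqueSp c,
      (∀ a ∈ A, x.1 a = true) → (∀ b ∈ B, x.1 b = false) → x ∈ U := by
  classical
  obtain ⟨x₀, hx₀⟩ := hne
  obtain ⟨V, hV, hVU⟩ := isOpen_induced_iff.1 hU
  have hVU' : ∀ x : CliqueSp c, x.1 ∈ V ↔ x ∈ U := fun x => Set.ext_iff.1 hVU x
  have hxV : x₀.1 ∈ V := (hVU' x₀).2 hx₀
  obtain ⟨F, u, hu, hF⟩ := isOpen_pi_iff.1 hV x₀.1 hxV
  refine ⟨F.filter (fun a => x₀.1 a = true), F.filter (fun a => x₀.1 a = false), ?_, ?_, ?_⟩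
  · rw [Finset.disjoint_left]
    intro a ha hb
    rw [Finset.mem_filter] at ha hb
    rw [ha.2] at hb
    exact absurd hb.2 (by decide)
  · intro a ha b hb hab
    rw [Finset.mem_coe, Finset.mem_filter] at ha hb
    exact x₀.2 a b hab ha.2 hb.2
  · intro x hxA hxB
    have h1 : x.1 ∈ V := by
      refine hF fun a ha => ?_
      have h2 : x.1 a = x₀.1 a := by
        cases h3 : x₀.1 a with
        | true => exact hxA a (Finset.mem_filter.2 ⟨ha, h3⟩)
        | false => exact hxB a (Finset.mem_filter.2 ⟨ha, h3⟩)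
      rw [h2]
      exact (hu a ha).2
    exact (hVU' x).1 h1

/-- The continuous function on the space of cliques which says whether `a` is in the clique. -/
noncomputable def coordFn {K : Type} (c : Set (Sym2 K)) (a : K) : C(CliqueSp c, ℝ) where
  toFun x := if x.1 a = true then 1 else 0
  continuous_toFun := by
    have h : Continuous fun x : CliqueSp c => x.1 a := (continuous_apply a).comp continuous_subtype_val
    have h2 : Continuous fun b : Bool => if b = true then (1 : ℝ) else 0 := continuous_of_discreteTopology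
    exact h2.comp h


theorem coord_tendsto {K : Type} (c : Set (Sym2 K)) (e : ℕ → K) (he : Function.Injective e)
    (hI : Indep c (Set.range e)) (x : CliqueSp c) :
    Tendsto (fun i => coordFn c (e i) x) atTop (𝓝 0) := by
  have hev : ∀ᶠ i in atTop, coordFn c (e i) x = 0 := by
    by_cases h : ∃ i0, x.1 (e i0) = true
    · obtain ⟨i0, hi0⟩ := h
      filter_upwards [eventually_gt_atTop i0] with i hi
      have hne : e i0 ≠ e i := fun h => absurd (he h) (ne_of_lt hi)
      have hnt : ¬ (x.1 (e i) = true) := by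
        intro h1
        exact hI (e i0) (Set.mem_range_self i0) (e i) (Set.mem_range_self i) hne
          (x.2 (e i0) (e i) hne hi0 h1)
      change (if x.1 (e i) = true then (1 : ℝ) else 0) = 0
      rw [if_neg hnt]
    · refine Eventually.of_forall fun i => ?_
      change (if x.1 (e i) = true then (1 : ℝ) else 0) = 0
      rw [if_neg (fun h1 => h ⟨i, h1⟩)]
  exact (tendsto_const_nhds (x := (0 : ℝ))).congr' (hev.mono fun i hi => hi.symm)


theorem pigeon (n N : ℕ) (hn : 0 < n) (P : Fin N → Fin n → Prop) (h : ∀ j, ∃ i, P j i) :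
    ∃ i : Fin n, ∃ J : Finset (Fin N), (∀ j ∈ J, P j i) ∧ N ≤ n * J.card := by
  classical
  choose g hg using h
  by_contra hcon
  push Not at hcon
  have h1 : ∀ i : Fin n, n * (Finset.univ.filter fun j => g j = i).card < N := by
    intro i
    refine hcon i _ ?_
    intro j hj
    have : g j = i := (Finset.mem_filter.1 hj).2
    rw [← this]
    exact hg j
  have h2 : (Finset.univ : Finset (Fin N)).card =
      ∑ i : Fin n, (Finset.univ.filter fun j => g j = i).card :=
    Finset.card_eq_sum_card_fiberwise (fun j _ => Finset.mem_univ _)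
  rw [Finset.card_univ, Fintype.card_fin] at h2
  have h3 : ∑ i : Fin n, n * (Finset.univ.filter fun j => g j = i).card < ∑ _i : Fin n, N := by
    refine Finset.sum_lt_sum_of_nonempty ⟨⟨0, hn⟩, Finset.mem_univ _⟩ fun i _ => h1 i
  rw [← Finset.mul_sum, ← h2, Finset.sum_const, Finset.card_univ, Fintype.card_fin,
    smul_eq_mul] at h3
  exact lt_irrefl _ h3

theorem noCpUniversal_of_graphPrinciple (K : Type) [Infinite K] (h : GraphPrinciple K) :
    NoCpUniversal #K := by
  classical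
  intro W _ _ _ hW
  obtain ⟨d, hd⟩ := exists_dense W K hW
  obtain ⟨H, hH⟩ : ∃ H : ℕ → (N : ℕ) → Set (Fin N → K), H = fun (n N : ℕ) => {a : Fin N → K | ∃ w : W,
      ∃ J : Finset (Fin N), (∀ j ∈ J, 3 / (4 * ((n : ℝ) + 1)) ≤ |d (a j) w|) ∧ N ≤ n * J.card} :=
    ⟨_, rfl⟩
  obtain ⟨c, hc⟩ := h H
  obtain ⟨hX1, hX2, hX3, hX4⟩ := cliqueSp_props c
  refine ⟨CliqueSp c, inferInstance, hX1, hX2, hX4, ?_⟩
  rintro ⟨φ0, hφ0⟩
  obtain ⟨φ, hφe⟩ : ∃ φ : C(CliqueSp c, ℝ) → C(W, ℝ), φ = φ0 := ⟨φ0, rfl⟩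
  have hφ : Topology.IsEmbedding (X := Cp (CliqueSp c)) (Y := Cp W) φ := by
    rw [hφe]; exact hφ0
  obtain ⟨n, U, hU, hUne, hUw⟩ := baire_step (CliqueSp c) W (fun f => φ f - φ 0)
    (fun x => embed_step (CliqueSp c) W φ hφ x)
  have hn : 0 < n := by
    rcases Nat.eq_zero_or_pos n with h0 | h0
    · exfalso
      subst h0
      obtain ⟨x, hx⟩ := hUne
      obtain ⟨w, hw⟩ := hUw x hx
      have h1 := hw 1 (fun i => i.elim0)
      rw [ContinuousMap.one_apply, abs_one] at h1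
      norm_num at h1
    · exact h0
  have hn1 : (0 : ℝ) < (n : ℝ) + 1 := by positivity
  obtain ⟨A, B, hAB, hA, hABU⟩ := clique_open c U hU hUne
  have hq0 : ∀ a : K, ∃ k : K, ∀ w, |(φ (coordFn c a) - φ 0) w - d k w| ≤ 1 / (8 * ((n : ℝ) + 1)) :=
    fun a => hd _ _ (by positivity)
  choose q hq using hq0
  have e34 : 1 / ((n : ℝ) + 1) - 1 / (8 * ((n : ℝ) + 1)) - 3 / (4 * ((n : ℝ) + 1)) =
      1 / (8 * ((n : ℝ) + 1)) := by
    field_simp
    ring
  have e58 : 3 / (4 * ((n : ℝ) + 1)) - 1 / (8 * ((n : ℝ) + 1)) = 5 / (8 * ((n : ℝ) + 1)) := by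
    field_simp
    ring
  have hpos8 : 0 < 1 / (8 * ((n : ℝ) + 1)) := by positivity
  have claim : ∀ (N : ℕ) (x : Fin N → K),
      (∀ i, x i ∉ B) ∧ Clique c (↑A ∪ Set.range x) → (fun i => q (x i)) ∈ H n N := by
    rintro N x ⟨hxB, hcl⟩
    obtain ⟨y, hy⟩ : ∃ y : CliqueSp c, ∀ a, y.1 a = decide (a ∈ A ∨ a ∈ Set.range x) := by
      refine ⟨⟨fun a => decide (a ∈ A ∨ a ∈ Set.range x), ?_⟩, fun a => rfl⟩
      intro a b hab ha hb
      rw [decide_eq_true_eq] at ha hb
      exact hcl a ha b hb hab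
    have hyU : y ∈ U := by
      apply hABU
      · intro a ha
        rw [hy, decide_eq_true_eq]
        exact Or.inl ha
      · intro b hb
        rw [hy, decide_eq_false_iff_not]
        rintro (h1 | ⟨i, h1⟩)
        · exact Finset.disjoint_left.1 hAB h1 hb
        · exact hxB i (h1 ▸ hb)
    obtain ⟨w, hw⟩ := hUw y hyU
    have hP : ∀ j : Fin N, ∃ i : Fin n, 3 / (4 * ((n : ℝ) + 1)) ≤ |d (q (x j)) (w i)| := by
      intro j
      have h1 : coordFn c (x j) y = 1 := by
        change (if y.1 (x j) = true then (1 : ℝ) else 0) = 1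
        rw [if_pos]
        rw [hy, decide_eq_true_eq]
        exact Or.inr ⟨j, rfl⟩
      have h2 : ¬ ∀ i, |(φ (coordFn c (x j)) - φ 0) (w i)| < 1 / ((n : ℝ) + 1) := by
        intro h3
        have h4 := hw (coordFn c (x j)) h3
        rw [h1, abs_one] at h4
        norm_num at h4
      push Not at h2
      obtain ⟨i, hi⟩ := h2
      refine ⟨i, ?_⟩
      have h5 := hq (x j) (w i)
      have h6 : |(φ (coordFn c (x j)) - φ 0) (w i)| ≤
          |(φ (coordFn c (x j)) - φ 0) (w i) - d (q (x j)) (w i)| + |d (q (x j)) (w i)| := by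
        have := abs_add_le ((φ (coordFn c (x j)) - φ 0) (w i) - d (q (x j)) (w i))
          (d (q (x j)) (w i))
        rwa [sub_add_cancel] at this
      linarith
    obtain ⟨i, J, hJ, hcard⟩ := pigeon n N hn
      (fun j i => 3 / (4 * ((n : ℝ) + 1)) ≤ |d (q (x j)) (w i)|) hP
    rw [hH]
    exact ⟨w i, J, hJ, hcard⟩
  obtain ⟨I, hIinf, hIind, hIH⟩ := hc n q ⟨A, B, hA, claim⟩
  obtain ⟨e, he, heI⟩ : ∃ e : ℕ → K, Function.Injective e ∧ ∀ i, e i ∈ I :=
    ⟨fun i => (hIinf.natEmbedding I i : K),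
      fun a b hab => (hIinf.natEmbedding I).injective (Subtype.ext hab),
      fun i => (hIinf.natEmbedding I i).2⟩
  have hindr : Indep c (Set.range e) := by
    rintro _ ⟨i, rfl⟩ _ ⟨j, rfl⟩ hij
    exact hIind _ (heI i) _ (heI j) hij
  obtain ⟨w, hw⟩ := kelley W (fun i => {w | 3 / (4 * ((n : ℝ) + 1)) ≤ |d (q (e i)) w|})
    (fun i => isClosed_le continuous_const ((d (q (e i))).continuous.abs)) n (by
      intro N x
      have h1 := hIH N (fun i => e (x i)) (fun i => heI _)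
      rw [hH] at h1
      exact h1)
  have ht := contin_step (CliqueSp c) W φ hφ.continuous (fun i => coordFn c (e i))
    (fun x => coord_tendsto c e he hindr x) w
  have hev : ∀ᶠ i in atTop, |(φ (coordFn c (e i)) - φ 0) w| < 5 / (8 * ((n : ℝ) + 1)) := by
    have h1 := (Metric.tendsto_nhds.1 ht) (5 / (8 * ((n : ℝ) + 1))) (by positivity)
    filter_upwards [h1] with i hi
    rwa [Real.dist_eq, sub_zero] at hi
  have hfr : ∃ᶠ i in atTop, i ∈ {i | w ∈ {w | 3 / (4 * ((n : ℝ) + 1)) ≤ |d (q (e i)) w|}} :=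
    Nat.frequently_atTop_iff_infinite.2 hw
  obtain ⟨i, hi1, hi2⟩ := (hfr.and_eventually hev).exists
  have h5 := hq (e i) w
  have hi3 : 3 / (4 * ((n : ℝ) + 1)) ≤ |d (q (e i)) w| := hi1
  have h6 : |d (q (e i)) w| ≤
      |(φ (coordFn c (e i)) - φ 0) w - d (q (e i)) w| + |(φ (coordFn c (e i)) - φ 0) w| := by
    have := abs_sub_abs_le_abs_sub (d (q (e i)) w) ((φ (coordFn c (e i)) - φ 0) w)
    rw [abs_sub_comm] at this
    linarith
  linarith

end ZFC

end Pool.Agent.Helper161.Cpu
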