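import Mathlib
import Pool.Agent.Helper161.Cpu.Zfc

/-!
# Cohen forcing forces the graph principle
-/

set_option autoImplicit false
set_option linter.unusedSectionVars false
set_option linter.unusedVariables false

namespace Pool.Agent.Helper161.Cpu

open Cardinal

section LangLemmas

universe v w

variable {P : Type} [Preorder P]

theorem mem_fex {ι : Sort v} {φ : ι → Set P} {p : P} :
    p ∈ fex φ ↔ ∀ q ≤ p, ∃ r ≤ q, ∃ i, r ∈ φ i := by
  simp only [fex, fnot, fall, Set.mem_ofPred_eq, not_forall, not_not]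
  constructor
  · intro h q hq
    obtain ⟨i, r, hr, h'⟩ := h q hq
    exact ⟨r, hr, i, h'⟩
  · intro h q hq
    obtain ⟨r, hr, i, h'⟩ := h q hq
    exact ⟨i, r, hr, h'⟩

theorem mem_fimp {φ ψ : Set P} {p : P} :
    p ∈ fimp φ ψ ↔ ∀ q ≤ p, q ∈ φ → ∃ r ≤ q, r ∈ ψ := by
  simp only [fimp, fnot, fand, Set.mem_ofPred_eq, not_and, not_forall, not_not]
  constructor
  · intro h q hq h'
    obtain ⟨r, hr, h''⟩ := h q hq h'
    exact ⟨r, hr, h''⟩
  · intro h q hq h'
    obtain ⟨r, hr, h''⟩ := h q hq h'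
    exact ⟨r, hr, h''⟩

theorem mem_fnot {φ : Set P} {p : P} : p ∈ fnot φ ↔ ∀ q ≤ p, q ∉ φ := Iff.rfl

theorem mem_fand {φ ψ : Set P} {p : P} : p ∈ fand φ ψ ↔ p ∈ φ ∧ p ∈ ψ := Iff.rfl

theorem mem_fall {ι : Sort v} {φ : ι → Set P} {p : P} : p ∈ fall φ ↔ ∀ i, p ∈ φ i := Iff.rfl

theorem mem_fground {h : Prop} {p : P} : p ∈ fground (P := P) h ↔ h := Iff.rfl

/-- The statement `φ` is preserved by passing to stronger conditions. -/
def Down (φ : Set P) : Prop := ∀ p ∈ φ, ∀ q ≤ p, q ∈ φ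

/-- The statement `φ` is forced if it is forced by densely many stronger conditions. -/
def Reglr (φ : Set P) : Prop := Down φ ∧ ∀ p, (∀ q ≤ p, ∃ r ≤ q, r ∈ φ) → p ∈ φ

theorem reglr_fnot {φ : Set P} (h : Down φ) : Reglr (fnot φ) :=
  ⟨fun _ hp _ hq r hr => hp r (hr.trans hq), fun p hp q hq hφ => by
    obtain ⟨r, hr, hr'⟩ := hp q hq
    exact hr' r le_rfl (h q hφ r hr)⟩

theorem down_fnot (φ : Set P) : Down (fnot φ) :=
  fun _ hp _ hq r hr => hp r (hr.trans hq)

theorem down_fand {φ ψ : Set P} (h : Down φ) (h' : Down ψ) : Down (fand φ ψ) :=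
  fun _ hp _ hq => ⟨h _ hp.1 _ hq, h' _ hp.2 _ hq⟩

theorem down_fall {ι : Sort v} {φ : ι → Set P} (h : ∀ i, Down (φ i)) : Down (fall φ) :=
  fun _ hp _ hq i => h i _ (hp i) _ hq

theorem reglr_fand {φ ψ : Set P} (h : Reglr φ) (h' : Reglr ψ) : Reglr (fand φ ψ) :=
  ⟨down_fand h.1 h'.1, fun p hp => ⟨h.2 p fun q hq => (hp q hq).imp fun _ hr => ⟨hr.1, hr.2.1⟩,
    h'.2 p fun q hq => (hp q hq).imp fun _ hr => ⟨hr.1, hr.2.2⟩⟩⟩

theorem reglr_fall {ι : Sort v} {φ : ι → Set P} (h : ∀ i, Reglr (φ i)) : Reglr (fall φ) :=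
  ⟨down_fall fun i => (h i).1, fun p hp i => (h i).2 p fun q hq =>
    (hp q hq).imp fun _ hr => ⟨hr.1, hr.2 i⟩⟩

theorem down_fex {ι : Sort v} (φ : ι → Set P) : Down (fex φ) := down_fnot _

theorem reglr_fex {ι : Sort v} (φ : ι → Set P) : Reglr (fex φ) :=
  reglr_fnot (down_fall fun _ => down_fnot _)

theorem down_fimp (φ ψ : Set P) : Down (fimp φ ψ) := down_fnot _

theorem reglr_fimp {φ : Set P} (h : Down φ) (ψ : Set P) : Reglr (fimp φ ψ) :=
  reglr_fnot (down_fand h (down_fnot _))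

theorem down_fground (h : Prop) : Down (fground (P := P) h) := fun _ hp _ _ => hp

theorem reglr_fground (h : Prop) : Reglr (fground (P := P) h) :=
  ⟨down_fground h, fun p hp => by
    obtain ⟨r, _, hr⟩ := hp p le_rfl
    exact hr⟩

theorem down_meets (N : Set P) : Down (meets N) :=
  fun _ hp _ hq r hr => hp r (hr.trans hq)

theorem reglr_meets (N : Set P) : Reglr (meets N) :=
  ⟨down_meets N, fun p hp q hq => by
    obtain ⟨r, hr, hr'⟩ := hp q hq
    obtain ⟨t, ht, s, hs, hts⟩ := hr' r le_rfl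
    exact ⟨t, ht.trans hr, s, hs, hts⟩⟩

theorem reglr_IsFun {X : Type v} {Y : Type w} (R : X → Y → Set P) : Reglr (IsFun R) :=
  reglr_fand (reglr_fall fun _ => reglr_fex _)
    (reglr_fall fun _ => reglr_fall fun _ => reglr_fall fun _ =>
      reglr_fimp (down_fand (down_meets _) (down_meets _)) _)

theorem down_IsFun {X : Type v} {Y : Type w} (R : X → Y → Set P) : Down (IsFun R) :=
  (reglr_IsFun R).1

theorem mem_fex_of_mem {ι : Sort v} {φ : ι → Set P} {p : P} (i : ι) (hd : Down (φ i))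
    (h : p ∈ φ i) : p ∈ fex φ :=
  mem_fex.2 fun q hq => ⟨q, le_rfl, i, hd _ h _ hq⟩

theorem meets_of_mem {N : Set P} {p : P} (h : p ∈ N) : p ∈ meets N :=
  fun q hq => ⟨q, le_rfl, p, h, hq⟩

/-- for a set closed downwards -/
theorem exists_of_meets {N : Set P} (hN : Down N) {p : P} (h : p ∈ meets N) :
    ∃ q ≤ p, q ∈ N := by
  obtain ⟨r, hr, s, hs, hle⟩ := h p le_rfl
  exact ⟨r, hr, hN s hs r hle⟩

theorem IsFun.total {X : Type v} {Y : Type w} {R : X → Y → Set P} {p : P} (h : p ∈ IsFun R)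
    (x : X) : ∃ q ≤ p, ∃ y, q ∈ meets (R x y) := mem_fex.1 (h.1 x) p le_rfl

theorem IsFun.unique {X : Type v} {Y : Type w} {R : X → Y → Set P} {p : P} (h : p ∈ IsFun R)
    {x : X} {y y' : Y} (h1 : p ∈ meets (R x y)) (h2 : p ∈ meets (R x y')) : y = y' := by
  obtain ⟨r, _, hr⟩ := mem_fimp.1 (h.2 x y y') p le_rfl ⟨h1, h2⟩
  exact hr

end LangLemmas

theorem tf_fex {ι : Sort*} (φ : ι → Set Unit) : (() ∈ fex φ) ↔ ∃ i, () ∈ φ i := by
  rw [mem_fex]
  constructor
  · intro h
    obtain ⟨r, _, i, hi⟩ := h () le_rfl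
    exact ⟨i, hi⟩
  · rintro ⟨i, hi⟩ q _
    exact ⟨(), le_rfl, i, hi⟩

theorem tf_fimp (φ ψ : Set Unit) : (() ∈ fimp φ ψ) ↔ (() ∈ φ → () ∈ ψ) := by
  rw [mem_fimp]
  constructor
  · intro h hφ
    obtain ⟨r, _, hr⟩ := h () le_rfl hφ
    exact hr
  · intro h q _ hq
    exact ⟨(), le_rfl, h hq⟩

theorem tf_fnot (φ : Set Unit) : (() ∈ fnot φ) ↔ () ∉ φ := by
  rw [mem_fnot]
  exact ⟨fun h => h () le_rfl, fun h q _ => h⟩

theorem tf_meets (N : Set Unit) : (() ∈ meets N) ↔ () ∈ N := by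
  constructor
  · intro h
    obtain ⟨r, _, s, hs, _⟩ := h () le_rfl
    exact hs
  · exact meets_of_mem

theorem tf_clique {K : Type} (c : Sym2 K → Set Unit) (A : Set K) :
    (() ∈ FClique c A) ↔ Clique {e | () ∈ c e} A := by
  unfold FClique Clique
  simp only [mem_fall, tf_meets]
  rfl

theorem tf_infinite {K : Type} (I : K → Set Unit) :
    (() ∈ FInfinite I) ↔ {x | () ∈ I x}.Infinite := by
  classical
  unfold FInfinite
  simp only [mem_fall, tf_fex, mem_fand, mem_fground, tf_meets]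
  constructor
  · intro h hf
    obtain ⟨x, hx, hx2⟩ := h hf.toFinset
    exact hx (hf.mem_toFinset.2 hx2)
  · intro h F
    obtain ⟨x, hx, hx2⟩ := h.exists_notMem_finset F
    exact ⟨x, hx2, hx⟩

theorem tf_indep {K : Type} (c : Sym2 K → Set Unit) (I : K → Set Unit) :
    (() ∈ FIndep c I) ↔ Indep {e | () ∈ c e} {x | () ∈ I x} := by
  unfold FIndep Indep
  simp only [mem_fall, tf_fimp, mem_fand, mem_fground, tf_meets, tf_fnot]
  constructor
  · intro h x hx y hy hxy
    exact h x y ⟨hx, hy⟩ hxy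
  · intro h x y hxy hne
    exact h x hxy.1 y hxy.2 hne

theorem tf_isFun {K : Type} (R : K → K → Set Unit) :
    (() ∈ IsFun R) ↔ ∃ q : K → K, ∀ x y, () ∈ R x y ↔ q x = y := by
  unfold IsFun
  simp only [mem_fand, mem_fall, tf_fex, tf_fimp, mem_fground, tf_meets]
  constructor
  · rintro ⟨h1, h2⟩
    choose q hq using h1
    refine ⟨q, fun x y => ⟨fun h => h2 x _ _ ⟨hq x, h⟩, ?_⟩⟩
    rintro rfl
    exact hq x
  · rintro ⟨q, hq⟩
    refine ⟨fun x => ⟨q x, (hq x _).2 rfl⟩, ?_⟩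
    rintro x y y' ⟨h1, h2⟩
    rw [← (hq x y).1 h1, ← (hq x y').1 h2]

theorem tf_FIn {K : Type} (H : ℕ → (N : ℕ) → (Fin N → K) → Set Unit) (n : ℕ)
    (R : K → K → Set Unit) (q : K → K) (hq : ∀ x y, () ∈ R x y ↔ q x = y) (N : ℕ)
    (x : Fin N → K) : (() ∈ FIn H n R N x) ↔ () ∈ H n N (fun i => q (x i)) := by
  unfold FIn
  simp only [mem_fall, tf_fimp, tf_meets, hq]
  constructor
  · intro h
    exact h _ fun i => rfl
  · intro h a ha
    have : a = fun i => q (x i) := funext fun i => (ha i).symm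
    rw [this]
    exact h

theorem trivial_forces (K : Type) : (() ∈ ForcesGraphPrinciple Unit K) ↔ GraphPrinciple K := by
  unfold ForcesGraphPrinciple GraphPrinciple
  simp only [mem_fall, tf_fex, tf_fimp, mem_fand, mem_fground, tf_meets, tf_clique, tf_infinite,
    tf_indep, tf_isFun]
  constructor
  · intro h H
    obtain ⟨c', hc⟩ := h (fun n N a => {_u | a ∈ H n N})
    refine ⟨{e | () ∈ c' e}, fun n q hAB => ?_⟩
    have hq : ∀ x y, () ∈ ({_u | q x = y} : Set Unit) ↔ q x = y := fun x y => Iff.rfl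
    obtain ⟨A, B, hA, hAB⟩ := hAB
    obtain ⟨I, hI1, hI2, hI3⟩ := hc n (fun x y => {_u | q x = y}) ⟨q, hq⟩ ⟨A, B, hA, by
      intro N x hx
      rw [tf_FIn _ _ _ q hq]
      exact hAB N x hx⟩
    refine ⟨{x | () ∈ I x}, hI1, hI2, fun N x hx => ?_⟩
    have := hI3 N x hx
    rw [tf_FIn _ _ _ q hq] at this
    exact this
  · intro h H'
    obtain ⟨c, hc⟩ := h (fun n N => {a | () ∈ H' n N a})
    refine ⟨fun e => {_u | e ∈ c}, ?_⟩
    rintro n R ⟨q, hq⟩ ⟨A, B, hA, hAB⟩
    obtain ⟨I, hI1, hI2, hI3⟩ := hc n q ⟨A, B, hA, by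
      intro N x hx
      have := hAB N x hx
      rw [tf_FIn _ _ _ q hq] at this
      exact this⟩
    refine ⟨fun x => {_u | x ∈ I}, hI1, hI2, fun N x hx => ?_⟩
    rw [tf_FIn _ _ _ q hq]
    exact hI3 N x hx

section CohenSec

/-- The conditions of the Cohen forcing which adds a function from `I` to `Bool`: the finite
partial functions. -/
structure Cohen (I : Type) where
  /-- the graph of the finite partial function -/
  s : Finset (I × Bool)
  /-- it is a function -/
  ok : ∀ i, (i, true) ∈ s → (i, false) ∈ s → False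

instance (I : Type) : Preorder (Cohen I) where
  le p q := q.s ⊆ p.s
  le_refl p := Finset.Subset.refl _
  le_trans p q r h h' := h'.trans h

variable {I : Type}

theorem Cohen.le_def {p q : Cohen I} : p ≤ q ↔ q.s ⊆ p.s := Iff.rfl

open Classical in
/-- the restriction of a condition to the coordinates in `T` -/
noncomputable def restr (T : Set I) (p : Cohen I) : Cohen I :=
  ⟨p.s.filter fun x => x.1 ∈ T, fun i h h' => p.ok i (Finset.mem_filter.1 h).1 (Finset.mem_filter.1 h').1⟩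

theorem mem_restr {T : Set I} {p : Cohen I} {x : I × Bool} : x ∈ (restr T p).s ↔ x ∈ p.s ∧ x.1 ∈ T := by
  classical
  simp [restr]


theorem exists_glue (p q : Cohen I) (h : ∀ i b b', (i, b) ∈ p.s → (i, b') ∈ q.s → b = b') :
    ∃ r : Cohen I, ∀ x, x ∈ r.s ↔ x ∈ p.s ∨ x ∈ q.s := by
  classical
  refine ⟨⟨p.s ∪ q.s, ?_⟩, fun x => Finset.mem_union⟩
  intro i h1 h2
  rw [Finset.mem_union] at h1 h2
  rcases h1 with h1 | h1 <;> rcases h2 with h2 | h2
  · exact p.ok i h1 h2
  · exact absurd (h i _ _ h1 h2) (by decide)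
  · exact absurd (h i _ _ h2 h1) (by decide)
  · exact q.ok i h1 h2

section DeltaAux
open Set

/-- Delta-system lemma for uncountable families of finite sets of bounded size. -/
theorem delta_card {T I : Type*} (F : I → Finset T) (n : ℕ) :
    ∀ (J : Set I), ¬ J.Countable → (∀ i ∈ J, (F i).card ≤ n) →
      ∃ (J' : Set I) (R : Finset T), J' ⊆ J ∧ ¬ J'.Countable ∧
        (∀ i ∈ J', R ⊆ F i) ∧ ∀ i ∈ J', ∀ j ∈ J', i ≠ j → ∀ t ∈ F i, t ∈ F j → t ∈ R := by
  classical
  induction n generalizing F with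
  | zero =>
    intro J hJ hc
    refine ⟨J, ∅, le_refl _, hJ, by simp, ?_⟩
    intro i hi j _ _ t ht
    have := hc i hi
    simp at this
    rw [this] at ht
    simp at ht
  | succ n ih =>
    intro J hJ hc
    by_cases hex : ∃ t, ¬ {i ∈ J | t ∈ F i}.Countable
    · obtain ⟨t, ht⟩ := hex
      obtain ⟨J', R, h1, h2, h3, h4⟩ := ih (fun i => (F i).erase t) {i ∈ J | t ∈ F i} ht (by
        intro i hi
        have := hc i hi.1
        rw [Finset.card_erase_of_mem hi.2]
        omega)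
      refine ⟨J', insert t R, fun i hi => (h1 hi).1, h2, ?_, ?_⟩
      · intro i hi x hx
        rcases Finset.mem_insert.mp hx with rfl | hx
        · exact (h1 hi).2
        · exact Finset.mem_of_mem_erase (h3 i hi hx)
      · intro i hi j hj hij x hxi hxj
        by_cases hxt : x = t
        · subst hxt; exact Finset.mem_insert_self _ _
        · exact Finset.mem_insert_of_mem (h4 i hi j hj hij x (Finset.mem_erase.mpr ⟨hxt, hxi⟩)
            (Finset.mem_erase.mpr ⟨hxt, hxj⟩))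
    · push Not at hex
      -- maximal disjoint subfamily
      obtain ⟨J', hJ', hmax⟩ : ∃ J' : Set I, Maximal (fun J' : Set I => J' ⊆ J ∧ ∀ i ∈ J', ∀ j ∈ J', i ≠ j → Disjoint (F i) (F j)) J' := by
        apply zorn_subset
        intro c hc1 hc2
        refine ⟨⋃₀ c, ⟨?_, ?_⟩, ?_⟩
        · exact sUnion_subset fun s hs => (hc1 hs).1
        · rintro i ⟨s, hs, his⟩ j ⟨s', hs', hjs'⟩ hij
          rcases hc2.total hs hs' with h | h
          · exact (hc1 hs').2 i (h his) j hjs' hij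
          · exact (hc1 hs).2 i his j (h hjs') hij
        · intro s hs
          exact subset_sUnion_of_mem hs
      have hmax' := hmax
      refine ⟨J', ∅, hJ'.1, ?_, by simp, ?_⟩
      · intro hcount
        apply hJ
        -- J is covered by sets meeting F j, j ∈ J'
        have hcov : J ⊆ J' ∪ ⋃ j ∈ J', ⋃ t ∈ (F j : Set T), {i ∈ J | t ∈ F i} := by
          intro i hi
          by_contra hni
          simp only [mem_union, mem_iUnion, not_or, not_exists] at hni
          obtain ⟨hni1, hni2⟩ := hni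
          have hins : insert i J' ⊆ J' := by
            apply hmax (y := insert i J')
            · refine ⟨insert_subset hi hJ'.1, ?_⟩
              have key : ∀ j ∈ J', Disjoint (F i) (F j) := by
                intro j hj
                rw [Finset.disjoint_left]
                intro t ht1 ht2
                exact hni2 j hj t (by simpa using ht2) ⟨hi, ht1⟩
              rintro a (rfl | ha) b (rfl | hb) hab
              · exact absurd rfl hab
              · exact key b hb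
              · exact (key a ha).symm
              · exact hJ'.2 a ha b hb hab
            · exact subset_insert _ _
          exact hni1 (hins (mem_insert _ _))
        refine Countable.mono hcov (hcount.union ?_)
        refine hcount.biUnion fun j _ => ?_
        exact (Finset.countable_toSet _).biUnion fun t _ => hex t
      · intro i hi j hj hij t h1 h2
        exact absurd h2 (Finset.disjoint_left.mp (hJ'.2 i hi j hj hij) h1)

/-- Delta-system lemma for uncountable families of finite sets. -/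
theorem delta_system {T I : Type*} (F : I → Finset T) (J : Set I) (hJ : ¬ J.Countable) :
      ∃ (J' : Set I) (R : Finset T), J' ⊆ J ∧ ¬ J'.Countable ∧
        (∀ i ∈ J', R ⊆ F i) ∧ ∀ i ∈ J', ∀ j ∈ J', i ≠ j → ∀ t ∈ F i, t ∈ F j → t ∈ R := by
  have : ∃ n : ℕ, ¬ {i ∈ J | (F i).card ≤ n}.Countable := by
    by_contra h
    push Not at h
    apply hJ
    refine Countable.mono ?_ (countable_iUnion h)
    intro i hi
    exact mem_iUnion.mpr ⟨(F i).card, hi, le_refl _⟩
  obtain ⟨n, hn⟩ := this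
  obtain ⟨J', R, h1, h2, h3, h4⟩ := delta_card F n _ hn (fun i hi => hi.2)
  exact ⟨J', R, fun i hi => (h1 hi).1, h2, h3, h4⟩

end DeltaAux

/-- The `Δ`-system lemma for uncountable families of finite sets. -/
theorem delta (A T : Type) (F : A → Finset T) (J : Set A) (hJ : ¬ J.Countable) :
    ∃ (E : Set A) (R : Finset T), E ⊆ J ∧ ¬ E.Countable ∧ (∀ a ∈ E, R ⊆ F a) ∧
      ∀ a ∈ E, ∀ b ∈ E, a ≠ b → ∀ x, x ∈ F a → x ∈ F b → x ∈ R := by
  exact delta_system F J hJ


theorem cohen_ccc (I : Type) : CCC (Cohen I) := by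
  classical
  intro A hA
  by_contra hunc
  obtain ⟨E, R, hEA, hE, -, hER⟩ := delta (Cohen I) I (fun p => p.s.image Prod.fst) A hunc
  have hex : ∃ a ∈ E, ∃ b ∈ E, a ≠ b ∧
      a.s.filter (fun x => x.1 ∈ R) = b.s.filter (fun x => x.1 ∈ R) := by
    by_contra hcon
    push Not at hcon
    apply hE
    have hinj : Set.InjOn (fun p : Cohen I => p.s.filter (fun x => x.1 ∈ R)) E := by
      intro a ha b hb hab
      by_contra hne
      exact hcon a ha b hb hne hab
    have hmaps : Set.MapsTo (fun p : Cohen I => p.s.filter (fun x => x.1 ∈ R)) E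
        ((R ×ˢ (Finset.univ : Finset Bool)).powerset : Set (Finset (I × Bool))) := by
      intro a _
      rw [Finset.mem_coe, Finset.mem_powerset]
      intro x hx
      rw [Finset.mem_filter] at hx
      rw [Finset.mem_product]
      exact ⟨hx.2, Finset.mem_univ _⟩
    exact hmaps.countable_of_injOn hinj (Finset.countable_toSet _)
  obtain ⟨a, ha, b, hb, hne, hab⟩ := hex
  have hok : ∀ (p : Cohen I) (i : I) (c c' : Bool), (i, c) ∈ p.s → (i, c') ∈ p.s → c = c' := by
    intro p i c c' h h'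
    cases c <;> cases c'
    · rfl
    · exact (p.ok i h' h).elim
    · exact (p.ok i h h').elim
    · rfl
  obtain ⟨r, hr⟩ := exists_glue a b (by
    intro i c c' h h'
    have hiR : i ∈ R := hER a ha b hb hne i (Finset.mem_image.2 ⟨(i, c), h, rfl⟩)
      (Finset.mem_image.2 ⟨(i, c'), h', rfl⟩)
    have h1 : (i, c) ∈ a.s.filter (fun x => x.1 ∈ R) := Finset.mem_filter.2 ⟨h, hiR⟩
    rw [hab] at h1
    exact hok b i c c' (Finset.mem_filter.1 h1).1 h')
  exact hne (hA a (hEA ha) b (hEA hb) ⟨r, fun x hx => (hr x).2 (Or.inl hx),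
    fun x hx => (hr x).2 (Or.inr hx)⟩)


theorem support (N : Set (Cohen I)) : ∃ S : Set I, S.Countable ∧ ∀ T : Set I, S ⊆ T →
    ∀ p ∈ meets N, restr T p ∈ meets N := by
  classical
  let D : Set (Cohen I) := {r | ∃ s ∈ N, r ≤ s}
  let S0 : Set (Set (Cohen I)) :=
    {A | A ⊆ D ∧ ∀ a ∈ A, ∀ b ∈ A, (∃ r, r ≤ a ∧ r ≤ b) → a = b}
  obtain ⟨A, hA⟩ := zorn_subset S0 (by
    intro c hc hchain
    refine ⟨⋃₀ c, ⟨?_, ?_⟩, fun s hs => Set.subset_sUnion_of_mem hs⟩
    · rintro x ⟨t, ht, hx⟩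
      exact (hc ht).1 hx
    · rintro a ⟨t, ht, hat⟩ b ⟨u, hu, hbu⟩ hab
      rcases hchain.total ht hu with h | h
      · exact (hc hu).2 a (h hat) b hbu hab
      · exact (hc ht).2 a hat b (h hbu) hab)
  have hAD : A ⊆ D := hA.prop.1
  have hanti := hA.prop.2
  have hcomp : ∀ d ∈ D, ∃ a ∈ A, ∃ r, r ≤ d ∧ r ≤ a := by
    intro d hd
    by_contra hcon
    push Not at hcon
    have hins : insert d A ∈ S0 := by
      refine ⟨Set.insert_subset hd hAD, ?_⟩
      rintro a (rfl | ha) b (rfl | hb) ⟨r, hra, hrb⟩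
      · rfl
      · exact absurd hrb (hcon b hb r hra)
      · exact absurd hra (hcon a ha r hrb)
      · exact hanti a ha b hb ⟨r, hra, hrb⟩
    have hdA : d ∈ A := hA.le_of_ge hins (Set.subset_insert d A) (Set.mem_insert d A)
    exact hcon d hdA d le_rfl le_rfl
  have hAc : A.Countable := cohen_ccc I A hanti
  refine ⟨⋃ a ∈ A, Prod.fst '' ((a.s : Finset (I × Bool)) : Set (I × Bool)), ?_, ?_⟩
  · exact hAc.biUnion fun a _ => ((Finset.finite_toSet a.s).image _).countable
  · intro T hT p hp q hq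
    obtain ⟨q', hq'⟩ := exists_glue (restr T q) (restr Tᶜ p) (by
      intro i b b' h1 h2
      exact absurd (mem_restr.1 h1).2 (mem_restr.1 h2).2)
    have hq'p : q' ≤ p := by
      intro x hx
      rw [hq']
      by_cases hxT : x.1 ∈ T
      · left
        exact mem_restr.2 ⟨hq (mem_restr.2 ⟨hx, hxT⟩), hxT⟩
      · right
        exact mem_restr.2 ⟨hx, hxT⟩
    obtain ⟨r, hr, s, hs, hrs⟩ := hp q' hq'p
    obtain ⟨a, ha, r', hr'r, hr'a⟩ := hcomp r ⟨s, hs, hrs⟩
    obtain ⟨r'', hr''⟩ := exists_glue (restr T r') (restr Tᶜ q) (by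
      intro i b b' h1 h2
      exact absurd (mem_restr.1 h1).2 (mem_restr.1 h2).2)
    obtain ⟨s', hs', has'⟩ := hAD ha
    refine ⟨r'', ?_, s', hs', le_trans ?_ has'⟩
    · intro x hx
      rw [hr'']
      by_cases hxT : x.1 ∈ T
      · left
        refine mem_restr.2 ⟨hr'r (hr ?_), hxT⟩
        rw [hq']
        exact Or.inl (mem_restr.2 ⟨hx, hxT⟩)
      · right
        exact mem_restr.2 ⟨hx, hxT⟩
    · intro x hx
      rw [hr'']
      left
      refine mem_restr.2 ⟨hr'a hx, hT ?_⟩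
      exact Set.mem_biUnion ha ⟨x, hx, rfl⟩

end CohenSec


theorem choose_j (K J : Type) [Infinite K] (hJ : #K < #J)
    (H : ℕ → (N : ℕ) → (Fin N → K) → Set (Cohen (J × Sym2 K))) :
    ∃ j : J, ∀ n N a, ∀ p ∈ meets (H n N a),
      restr {i : J × Sym2 K | i.1 ≠ j} p ∈ meets (H n N a) := by
  classical
  have hsup : ∀ x : ℕ × (Σ N : ℕ, Fin N → K), ∃ S : Set (J × Sym2 K), S.Countable ∧
      ∀ T : Set (J × Sym2 K), S ⊆ T → ∀ p ∈ meets (H x.1 x.2.1 x.2.2),
        restr T p ∈ meets (H x.1 x.2.1 x.2.2) := fun x => support _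
  choose S hS hT using hsup
  have hidx : #(ℕ × (Σ N : ℕ, Fin N → K)) ≤ #K := by
    have e1 : #(Σ N : ℕ, Fin N → K) = #K := by
      rw [← Cardinal.mk_congr (List.equivSigmaTuple (α := K)), Cardinal.mk_list_eq_mk]
    rw [Cardinal.mk_prod, e1, Cardinal.lift_id, Cardinal.lift_id, Cardinal.mk_nat]
    exact (Cardinal.aleph0_mul_eq (Cardinal.aleph0_le_mk K)).le
  have hU : #(⋃ x, (Prod.fst '' S x : Set J)) ≤ #K := by
    refine (Cardinal.mk_iUnion_le _).trans ?_
    calc #(ℕ × (Σ N : ℕ, Fin N → K)) * ⨆ x, #(Prod.fst '' S x : Set J) ≤ #K * ℵ₀ := by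
          apply mul_le_mul' hidx
          apply ciSup_le'
          intro x
          exact ((hS x).image _).le_aleph0
      _ = #K := Cardinal.mul_aleph0_eq (Cardinal.aleph0_le_mk K)
  have hex : ∃ j : J, j ∉ (⋃ x, (Prod.fst '' S x : Set J)) := by
    by_contra hcon
    push Not at hcon
    have h1 : (⋃ x, (Prod.fst '' S x : Set J)) = Set.univ := Set.eq_univ_of_forall hcon
    rw [h1, Cardinal.mk_univ] at hU
    exact absurd hJ (not_lt.mpr hU)
  obtain ⟨j, hj⟩ := hex
  refine ⟨j, fun n N a p hp => ?_⟩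
  refine hT (n, ⟨N, a⟩) _ ?_ p hp
  intro i hi hij
  exact hj (Set.mem_iUnion.mpr ⟨(n, ⟨N, a⟩), ⟨i, hi, hij⟩⟩)


theorem add_edges (K J : Type) (j : J) (p : Cohen (J × Sym2 K)) (A : Finset K) :
    ∃ V : Finset K, ∀ x ∉ V, ∃ r ≤ p, ∀ a ∈ A, ((j, s(x, a)), true) ∈ r.s := by
  classical
  refine ⟨p.s.biUnion (fun z => z.1.2.toFinset), fun x hx => ?_⟩
  let q : Cohen (J × Sym2 K) := ⟨A.image (fun a => ((j, s(x, a)), true)), fun i _ h' => by
    obtain ⟨a, _, ha⟩ := Finset.mem_image.1 h'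
    have := congrArg Prod.snd ha
    simp at this⟩
  obtain ⟨r, hr⟩ := exists_glue p q (by
    intro i b b' hb hb'
    exfalso
    obtain ⟨a, _, ha⟩ := Finset.mem_image.1 hb'
    have hi : (j, s(x, a)) = i := congrArg Prod.fst ha
    apply hx
    rw [Finset.mem_biUnion]
    refine ⟨(i, b), hb, ?_⟩
    rw [Sym2.mem_toFinset, ← hi]
    exact Sym2.mem_mk_left x a)
  refine ⟨r, ?_, ?_⟩
  · intro z hz
    exact (hr z).2 (Or.inl hz)
  · intro a ha
    exact (hr _).2 (Or.inr (Finset.mem_image.2 ⟨a, ha, rfl⟩))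

section ExtractAux

variable {K J : Type}

open Classical in
/-- the vertices that occur in the condition `q` -/
noncomputable def exV (q : Cohen (J × Sym2 K)) : Finset K :=
  q.s.biUnion fun d => d.1.2.toFinset

theorem mem_exV {q : Cohen (J × Sym2 K)} {y : K} : y ∈ exV q ↔ ∃ d ∈ q.s, y ∈ d.1.2 := by
  classical
  simp only [exV, Finset.mem_biUnion, Sym2.mem_toFinset]

open Classical in
/-- the coordinates and the vertices of `p x` -/
noncomputable def exF (p : K → Cohen (J × Sym2 K)) (x : K) : Finset ((J × Sym2 K) ⊕ K) :=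
  ((p x).s.image Prod.fst).disjSum (insert x (exV (p x)))

theorem inl_mem_exF {p : K → Cohen (J × Sym2 K)} {x : K} {c : J × Sym2 K} :
    Sum.inl c ∈ exF p x ↔ ∃ b, (c, b) ∈ (p x).s := by
  classical
  simp only [exF, Finset.inl_mem_disjSum, Finset.mem_image, Prod.exists, exists_and_right,
    exists_eq_right]

theorem inr_mem_exF {p : K → Cohen (J × Sym2 K)} {x y : K} :
    Sum.inr y ∈ exF p x ↔ y = x ∨ y ∈ exV (p x) := by
  classical
  simp only [exF, Finset.inr_mem_disjSum, Finset.mem_insert]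

theorem ex_delta [Uncountable K] (j : J) (B : Finset K) (p : K → Cohen (J × Sym2 K)) :
    ∃ (e : ℕ → K) (R : Set (J × Sym2 K)), Function.Injective e ∧ (∀ i, e i ∉ B) ∧
      (∀ i k, i ≠ k → ∀ c b b', (c, b) ∈ (p (e i)).s → (c, b') ∈ (p (e k)).s → c ∈ R) ∧
      (∀ i k, ∀ z ∈ (p (e i)).s, z.1 ∈ R → z ∈ (p (e k)).s) ∧
      (∀ i k l, i ≠ k → ∀ b, ((j, s(e i, e k)), b) ∉ (p (e l)).s) := by
  classical
  have hB : ¬ ((B : Set K)ᶜ).Countable := by
    intro h
    have h2 : (Set.univ : Set K).Countable := by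
      rw [← Set.union_compl_self (B : Set K)]
      exact (B.finite_toSet.countable).union h
    exact not_countable (α := K) (Set.countable_univ_iff.1 h2)
  obtain ⟨E, R, hEB, hE, hRF, hR⟩ := delta K ((J × Sym2 K) ⊕ K) (exF p) _ hB
  -- the finitely many possible restrictions to the root
  let g : K → Finset ((J × Sym2 K) × Bool) := fun x => (p x).s.filter fun z => Sum.inl z.1 ∈ R
  let S0 : Finset ((J × Sym2 K) × Bool) :=
    (R.biUnion fun u => match u with | Sum.inl c => {c} | Sum.inr _ => ∅) ×ˢ Finset.univ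
  have hg : ∀ x, g x ∈ S0.powerset := by
    intro x
    rw [Finset.mem_powerset]
    intro z hz
    have hz2 := (Finset.mem_filter.1 hz).2
    refine Finset.mem_product.2 ⟨Finset.mem_biUnion.2 ⟨Sum.inl z.1, hz2, by simp⟩,
      Finset.mem_univ _⟩
  have hbad : {x : K | Sum.inr x ∈ R}.Finite := by
    refine Set.Finite.subset (R.biUnion fun u => match u with
      | Sum.inl _ => ∅ | Sum.inr x => {x}).finite_toSet ?_
    intro x hx
    exact Finset.mem_coe.2 (Finset.mem_biUnion.2 ⟨Sum.inr x, hx, by simp⟩)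
  have hex : ∃ y, ¬ {x ∈ E | g x = y ∧ Sum.inr x ∉ R}.Countable := by
    by_contra hcon
    push Not at hcon
    apply hE
    have h1 : E ⊆ (⋃ y ∈ (S0.powerset : Set (Finset ((J × Sym2 K) × Bool))),
        {x ∈ E | g x = y ∧ Sum.inr x ∉ R}) ∪ {x : K | Sum.inr x ∈ R} := by
      intro x hx
      by_cases hxR : Sum.inr x ∈ R
      · exact Or.inr hxR
      · refine Or.inl (Set.mem_iUnion₂.2 ⟨g x, Finset.mem_coe.2 (hg x), hx, rfl, hxR⟩)
    refine Set.Countable.mono h1 (Set.Countable.union ?_ hbad.countable)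
    exact Set.Countable.biUnion (Finset.countable_toSet _) fun y _ => hcon y
  obtain ⟨y, hy⟩ := hex
  have hinf : {x ∈ E | g x = y ∧ Sum.inr x ∉ R}.Infinite := fun h => hy h.countable
  let e' := hinf.natEmbedding
  have he1 : ∀ i, (e' i : K) ∈ E := fun i => (e' i).2.1
  have he2 : ∀ i, g (e' i : K) = y := fun i => (e' i).2.2.1
  have he3 : ∀ i, Sum.inr (e' i : K) ∉ R := fun i => (e' i).2.2.2
  have hinj : Function.Injective fun i => (e' i : K) := fun a b h => e'.injective (Subtype.ext h)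
  refine ⟨fun i => (e' i : K), {c | Sum.inl c ∈ R}, hinj, ?_, ?_, ?_, ?_⟩
  · intro i hi
    exact hEB (he1 i) (Finset.mem_coe.2 hi)
  · intro i k hik c b b' h h'
    exact hR _ (he1 i) _ (he1 k) (fun h => hik (hinj h)) _ (inl_mem_exF.2 ⟨b, h⟩)
      (inl_mem_exF.2 ⟨b', h'⟩)
  · intro i k z hz hzR
    have h1 : z ∈ g (e' i : K) := Finset.mem_filter.2 ⟨hz, hzR⟩
    rw [he2 i, ← he2 k] at h1
    exact (Finset.mem_filter.1 h1).1
  · intro i k l hik b hb
    have key : ∀ a : ℕ, a ≠ l → (e' a : K) ∈ s((e' i : K), (e' k : K)) → False := by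
      intro a hal ha
      refine he3 a (hR _ (he1 a) _ (he1 l) (fun h => hal (hinj h)) _
        (inr_mem_exF.2 (Or.inl rfl)) (inr_mem_exF.2 (Or.inr (mem_exV.2 ⟨_, hb, ha⟩))))
    by_cases hil : i = l
    · refine key k (fun h => hik (hil.trans h.symm)) (Sym2.mem_mk_right _ _)
    · exact key i hil (Sym2.mem_mk_left _ _)

end ExtractAux


theorem extract (K J : Type) [Uncountable K] (j : J) (p₁ : Cohen (J × Sym2 K)) (B : Finset K)
    (p : K → Cohen (J × Sym2 K)) (hp : ∀ x ∉ B, p x ≤ p₁) :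
    ∃ (e : ℕ → K) (pstar : Cohen (J × Sym2 K)), Function.Injective e ∧ (∀ i, e i ∉ B) ∧
      pstar ≤ p₁ ∧ (∀ i, p (e i) ≤ pstar) ∧
      (∀ t : Finset ℕ, ∃ r : Cohen (J × Sym2 K), (∀ i ∈ t, r ≤ p (e i)) ∧
        (∀ i ∈ t, ∀ k ∈ t, i ≠ k → ((j, s(e i, e k)), true) ∈ r.s) ∧
        (∀ u : Cohen (J × Sym2 K), (∀ i ∈ t, u ≤ p (e i)) →
          u ≤ restr {i : J × Sym2 K | i.1 ≠ j} r)) ∧
      (∀ r ≤ pstar, ∀ m : ℕ, ∃ i ≥ m, ∃ r' ≤ r, r' ≤ p (e i) ∧
        ∀ k < i, ((j, s(e i, e k)), false) ∈ r'.s) := by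
  classical
  obtain ⟨e, R, he, heB, hR1, hR2, hR3⟩ := ex_delta j B p
  have hps : ∀ i, (restr R (p (e 0))).s ⊆ (p (e i)).s := by
    intro i z hz
    obtain ⟨h1, h2⟩ := mem_restr.1 hz
    exact hR2 0 i z h1 h2
  refine ⟨e, restr R (p (e 0)), he, heB, ?_, hps, ?_, ?_⟩
  · intro z hz
    have h0 := hp (e 0) (heB 0) hz
    have h1 := hp (e 1) (heB 1) hz
    refine mem_restr.2 ⟨h0, ?_⟩
    exact hR1 0 1 (by norm_num) z.1 z.2 z.2 h0 h1
  · intro t
    obtain ⟨S, hmem⟩ : ∃ S : Finset ((J × Sym2 K) × Bool), ∀ c b, (c, b) ∈ S ↔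
        (∃ i ∈ t, (c, b) ∈ (p (e i)).s) ∨
          (∃ i ∈ t, ∃ k ∈ t, i ≠ k ∧ c = (j, s(e i, e k)) ∧ b = true) := by
      refine ⟨t.biUnion (fun i => (p (e i)).s) ∪
        ((t ×ˢ t).filter fun q => q.1 ≠ q.2).image
          (fun q => (((j, s(e q.1, e q.2)), true) : (J × Sym2 K) × Bool)), ?_⟩
      intro c b
      rw [Finset.mem_union, Finset.mem_biUnion, Finset.mem_image]
      constructor
      · rintro (h | ⟨q, hq, hq2⟩)
        · exact Or.inl h
        · obtain ⟨hq3, hq4⟩ := Finset.mem_filter.1 hq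
          obtain ⟨hq5, hq6⟩ := Finset.mem_product.1 hq3
          refine Or.inr ⟨q.1, hq5, q.2, hq6, hq4, ?_, ?_⟩
          · exact (congrArg Prod.fst hq2).symm
          · exact (congrArg Prod.snd hq2).symm
      · rintro (h | ⟨i, hi, k, hk, hik, h1, h2⟩)
        · exact Or.inl h
        · refine Or.inr ⟨(i, k), Finset.mem_filter.2 ⟨Finset.mem_product.2 ⟨hi, hk⟩, hik⟩, ?_⟩
          rw [h1, h2]
    refine ⟨⟨S, ?_⟩, ?_, ?_, ?_⟩
    · intro c h1 h2
      rcases (hmem c false).1 h2 with ⟨i, hi, h2⟩ | ⟨_, _, _, _, _, _, h⟩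
      · rcases (hmem c true).1 h1 with ⟨k, hk, h1⟩ | ⟨a, ha, b, hb, hab, h1, _⟩
        · by_cases hik : i = k
          · subst hik
            exact (p (e i)).ok c h1 h2
          · have h3 := hR1 i k hik c _ _ h2 h1
            exact (p (e i)).ok c (hR2 k i _ h1 h3) h2
        · rw [h1] at h2
          exact hR3 a b i hab _ h2
      · exact absurd h (by simp)
    · intro i hi z hz
      exact (hmem z.1 z.2).2 (Or.inl ⟨i, hi, hz⟩)
    · intro i hi k hk hik
      exact (hmem _ _).2 (Or.inr ⟨i, hi, k, hk, hik, rfl, rfl⟩)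
    · intro u hu z hz
      obtain ⟨h1, h2⟩ := mem_restr.1 hz
      rcases (hmem z.1 z.2).1 h1 with ⟨i, hi, h⟩ | ⟨i, _, k, _, _, h, _⟩
      · exact hu i hi h
      · exact absurd (by rw [h]) h2
  · intro r hr m
    have hf1 : {i : ℕ | ∃ z ∈ r.s, z.1 ∉ R ∧ ∃ b, (z.1, b) ∈ (p (e i)).s}.Finite := by
      have : {i : ℕ | ∃ z ∈ r.s, z.1 ∉ R ∧ ∃ b, (z.1, b) ∈ (p (e i)).s} =
          ⋃ z ∈ (r.s : Set ((J × Sym2 K) × Bool)), {i | z.1 ∉ R ∧ ∃ b, (z.1, b) ∈ (p (e i)).s} := by
        ext i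
        simp only [Set.mem_iUnion, Set.mem_ofPred_eq, Finset.mem_coe, exists_prop]
      rw [this]
      refine Set.Finite.biUnion r.s.finite_toSet fun z _ => ?_
      apply Set.Subsingleton.finite
      rintro i ⟨h1, b, hb⟩ k ⟨_, b', hb'⟩
      by_contra hik
      exact h1 (hR1 i k hik z.1 b b' hb hb')
    have hf2 : {i : ℕ | e i ∈ exV r}.Finite := by
      have : {i : ℕ | e i ∈ exV r} = e ⁻¹' (exV r : Set K) := by
        ext i
        simp
      rw [this]
      exact Set.Finite.preimage he.injOn (exV r).finite_toSet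
    obtain ⟨i, hi1, hi2⟩ := ((hf1.union hf2).infinite_compl).exists_gt m
    have hi3 : ∀ z ∈ r.s, ∀ b, (z.1, b) ∈ (p (e i)).s → z.1 ∈ R := by
      intro z hz b hb
      by_contra h
      exact hi1 (Or.inl ⟨z, hz, h, b, hb⟩)
    have hi4 : e i ∉ exV r := fun h => hi1 (Or.inr h)
    have hrp : ∀ z ∈ (p (e i)).s, z.1 ∈ R → z ∈ r.s := by
      intro z hz hzR
      exact hr (mem_restr.2 ⟨hR2 i 0 z hz hzR, hzR⟩)
    obtain ⟨S, hmem⟩ : ∃ S : Finset ((J × Sym2 K) × Bool), ∀ c b, (c, b) ∈ S ↔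
        ((c, b) ∈ r.s ∨ (c, b) ∈ (p (e i)).s) ∨ (∃ k < i, c = (j, s(e i, e k)) ∧ b = false) := by
      refine ⟨r.s ∪ (p (e i)).s ∪ (Finset.range i).image
          (fun k => (((j, s(e i, e k)), false) : (J × Sym2 K) × Bool)), ?_⟩
      intro c b
      rw [Finset.mem_union, Finset.mem_union, Finset.mem_image]
      constructor
      · rintro (h | ⟨q, hq, hq2⟩)
        · exact Or.inl h
        · exact Or.inr ⟨q, Finset.mem_range.1 hq, (congrArg Prod.fst hq2).symm,
            (congrArg Prod.snd hq2).symm⟩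
      · rintro (h | ⟨k, hk, h1, h2⟩)
        · exact Or.inl h
        · refine Or.inr ⟨k, Finset.mem_range.2 hk, ?_⟩
          rw [h1, h2]
    refine ⟨i, le_of_lt hi2, ⟨S, ?_⟩, ?_, ?_, ?_⟩
    · intro c h1 h2
      rcases (hmem c true).1 h1 with (h1 | h1) | ⟨_, _, _, h⟩
      · rcases (hmem c false).1 h2 with (h2 | h2) | ⟨k, hk, h, _⟩
        · exact r.ok c h1 h2
        · exact r.ok c h1 (hrp _ h2 (hi3 (c, true) h1 _ h2))
        · refine hi4 (mem_exV.2 ⟨_, h1, ?_⟩)
          rw [h]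
          exact Sym2.mem_mk_left _ _
      · rcases (hmem c false).1 h2 with (h2 | h2) | ⟨k, hk, h, _⟩
        · exact r.ok c (hrp _ h1 (hi3 (c, false) h2 _ h1)) h2
        · exact (p (e i)).ok c h1 h2
        · rw [h] at h1
          exact hR3 i k i (ne_of_gt hk) _ h1
      · exact absurd h (by simp)
    · intro z hz
      exact (hmem z.1 z.2).2 (Or.inl (Or.inl hz))
    · intro z hz
      exact (hmem z.1 z.2).2 (Or.inl (Or.inr hz))
    · intro k hk
      exact (hmem _ _).2 (Or.inr ⟨k, hk, rfl, rfl⟩)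

/-- finitely many dense sets can be met at once -/
theorem forced_ext_all {P : Type} [Preorder P] {N : ℕ} (S : Fin N → Set P) (hd : ∀ l, Down (S l))
    (p : P) (hp : ∀ l, p ∈ meets (S l)) : ∃ q ≤ p, ∀ l, q ∈ S l := by
  classical
  have key : ∀ s : Finset (Fin N), ∃ q ≤ p, ∀ l ∈ s, q ∈ S l := by
    intro s
    induction s using Finset.induction_on with
    | empty => exact ⟨p, le_rfl, fun l hl => absurd hl (Finset.notMem_empty l)⟩
    | insert a s _ ih =>
      obtain ⟨q, hq, hqs⟩ := ih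
      obtain ⟨r, hr, hra⟩ := exists_of_meets (hd a) (down_meets _ p (hp a) q hq)
      refine ⟨r, hr.trans hq, ?_⟩
      intro l hl
      rcases Finset.mem_insert.1 hl with rfl | hl
      · exact hra
      · exact hd l q (hqs l hl) r hr
  obtain ⟨q, hq, h⟩ := key Finset.univ
  exact ⟨q, hq, fun l => h l (Finset.mem_univ l)⟩

theorem forced (K J : Type) [Uncountable K] (hJ : #K < #J) (p : Cohen (J × Sym2 K)) :
    p ∈ ForcesGraphPrinciple (Cohen (J × Sym2 K)) K := by
  classical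
  refine mem_fall.2 fun H => ?_
  obtain ⟨j, hj⟩ := choose_j K J hJ H
  obtain ⟨c, hc⟩ : ∃ c : Sym2 K → Set (Cohen (J × Sym2 K)),
      c = fun e => {p | ((j, e), true) ∈ p.s} := ⟨_, rfl⟩
  have hcd : ∀ e, Down (c e) := by
    intro e p hp q hq
    rw [hc] at hp ⊢
    exact hq hp
  refine mem_fex_of_mem c (down_fall fun n => down_fall fun q => down_fimp _ _) ?_
  refine mem_fall.2 fun n => mem_fall.2 fun q => mem_fimp.2 ?_
  intro p' hp' hfun
  refine ⟨p', le_rfl, mem_fimp.2 ?_⟩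
  intro p'' hp'' hprem
  obtain ⟨p0, hp0, A, hA⟩ := mem_fex.1 hprem p'' le_rfl
  obtain ⟨p₁, hp1, B, hAB⟩ := mem_fex.1 hA p0 le_rfl
  have hcl : p₁ ∈ FClique c (A : Set K) := hAB.1
  have hall : ∀ (N : ℕ) (x : Fin N → K),
      p₁ ∈ fimp (fand (fground (∀ i, x i ∉ B)) (FClique c (↑A ∪ Set.range x))) (FIn H n q N x) :=
    fun N x => hAB.2 N x
  have hfun1 : p₁ ∈ IsFun q :=
    down_IsFun q p' hfun p₁ ((hp1.trans hp0).trans hp'')
  have hcld : ∀ S : Set K, Down (FClique c S) := fun S =>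
    down_fall fun x => down_fall fun _ => down_fall fun y => down_fall fun _ => down_fall fun _ =>
      down_meets _
  obtain ⟨V, hV⟩ := add_edges K J j p₁ A
  have hex : ∀ x : K, ∃ (px : Cohen (J × Sym2 K)) (v : K), x ∉ A ∪ B ∪ V →
      px ≤ p₁ ∧ (∀ a ∈ A, ((j, s(x, a)), true) ∈ px.s) ∧ px ∈ meets (q x v) := by
    intro x
    by_cases hx : x ∈ A ∪ B ∪ V
    · exact ⟨p₁, x, fun h => absurd hx h⟩
    · have hxV : x ∉ V := fun h => hx (Finset.mem_union_right _ h)
      obtain ⟨r, hr, hra⟩ := hV x hxV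
      obtain ⟨px, hpx, y, hy⟩ := IsFun.total (down_IsFun q p₁ hfun1 r hr) x
      exact ⟨px, y, fun _ => ⟨hpx.trans hr, fun a ha => hpx (hra a ha), hy⟩⟩
  choose px val hpx using hex
  obtain ⟨e, pstar, hinj, hnB, hps, hpe, hE1, hE2⟩ :=
    extract K J j p₁ (A ∪ B ∪ V) px (fun x hx => (hpx x hx).1)
  refine ⟨pstar, (hps.trans hp1).trans hp0, ?_⟩
  obtain ⟨I, hI⟩ : ∃ I : K → Set (Cohen (J × Sym2 K)),
      I = fun y => {s | ∃ i, y = e i ∧ s ≤ px (e i) ∧ ∀ k < i, ((j, s(e i, e k)), false) ∈ s.s} :=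
    ⟨_, rfl⟩
  have hIm : ∀ y s, s ∈ I y ↔ ∃ i, y = e i ∧ s ≤ px (e i) ∧
      ∀ k < i, ((j, s(e i, e k)), false) ∈ s.s := by
    intro y s
    rw [hI]
    rfl
  have hId : ∀ y, Down (I y) := by
    intro y s hs r hr
    rw [hIm] at hs ⊢
    obtain ⟨i, h1, h2, h3⟩ := hs
    exact ⟨i, h1, hr.trans h2, fun k hk => hr (h3 k hk)⟩
  refine mem_fex_of_mem I (down_fand (down_fall fun F => down_fex _)
    (down_fand (down_fall fun x => down_fall fun y => down_fimp _ _)
      (down_fall fun N => down_fall fun x => down_fimp _ _))) ?_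
  refine ⟨?_, ?_, ?_⟩
  · -- infinite
    refine mem_fall.2 fun F => mem_fex.2 ?_
    intro r hr
    have hfin : {i : ℕ | e i ∈ F}.Finite :=
      (F.finite_toSet).preimage (hinj.injOn)
    obtain ⟨m, hm⟩ := hfin.bddAbove
    obtain ⟨i, hi, r', hr', h1, h2⟩ := hE2 r hr (m + 1)
    refine ⟨r', hr', e i, ?_, meets_of_mem ((hIm _ _).2 ⟨i, rfl, h1, h2⟩)⟩
    show e i ∉ F
    intro hF
    have := hm hF
    omega
  · -- independent
    refine mem_fall.2 fun x => mem_fall.2 fun y => mem_fimp.2 ?_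
    rintro u hu ⟨h1, h2⟩
    refine ⟨u, le_rfl, mem_fimp.2 ?_⟩
    intro v hv hxy
    have hxy' : x ≠ y := hxy
    refine ⟨v, le_rfl, ?_⟩
    intro w hw hm
    have hwu : w ≤ u := hw.trans hv
    obtain ⟨w1, hw1, hw1x⟩ := exists_of_meets (hId x) (down_meets _ u h1 w hwu)
    obtain ⟨w2, hw2, hw2y⟩ := exists_of_meets (hId y) (down_meets _ u h2 w1 (hw1.trans hwu))
    obtain ⟨w3, hw3, hw3c⟩ := exists_of_meets (hcd s(x, y)) (down_meets _ w hm w2 (hw2.trans hw1))
    have hx3 := hId x w1 hw1x w3 (hw3.trans hw2)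
    have hy3 := hId y w2 hw2y w3 hw3
    rw [hIm] at hx3 hy3
    obtain ⟨i, hxi, -, hi⟩ := hx3
    obtain ⟨k, hyk, -, hk⟩ := hy3
    have htrue : ((j, s(x, y)), true) ∈ w3.s := by
      rw [hc] at hw3c
      exact hw3c
    have hik : i ≠ k := by
      rintro rfl
      exact hxy' (hxi.trans hyk.symm)
    rcases lt_or_gt_of_ne hik with h | h
    · have hfalse := hk i h
      rw [← hyk, ← hxi, Sym2.eq_swap] at hfalse
      exact w3.ok _ htrue hfalse
    · have hfalse := hi k h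
      rw [← hyk, ← hxi] at hfalse
      exact w3.ok _ htrue hfalse
  · -- the main part
    refine mem_fall.2 fun N => mem_fall.2 fun x => mem_fimp.2 ?_
    intro u hu huI
    refine ⟨u, le_rfl, ?_⟩
    refine mem_fall.2 fun a => mem_fimp.2 ?_
    intro u' hu' hq'
    rcases Nat.eq_zero_or_pos N with hN | hN
    · subst hN
      have hle : u' ≤ p₁ := (hu'.trans hu).trans hps
      have hclq : u' ∈ FClique c (↑A ∪ Set.range x) := by
        have h1 : Set.range x = ∅ := Set.range_eq_empty x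
        rw [h1, Set.union_empty]
        exact hcld _ p₁ hcl u' hle
      obtain ⟨r, hr, hrF⟩ := mem_fimp.1 (hall 0 x) u' hle ⟨fun i => i.elim0, hclq⟩
      obtain ⟨r', hr', hrH⟩ := mem_fimp.1 (hrF a) r le_rfl (fun i => i.elim0)
      exact ⟨r', hr'.trans hr, hrH⟩
    · obtain ⟨u'', hu'', hul⟩ := forced_ext_all (fun l => I (x l)) (fun l => hId _) u'
        (fun l => down_meets _ u (huI l) u' hu')
      have hul' : ∀ l, ∃ i, x l = e i ∧ u'' ≤ px (e i) := by
        intro l
        obtain ⟨i, h1, h2, -⟩ := (hIm _ _).1 (hul l)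
        exact ⟨i, h1, h2⟩
      choose k hk1 hk2 using hul'
      have hxB : ∀ l, x l ∉ A ∪ B ∪ V := fun l => by rw [hk1 l]; exact hnB _
      have hu''1 : u'' ≤ p₁ := (hu''.trans (hu'.trans hu)).trans hps
      have hval : ∀ l, a l = val (x l) := by
        intro l
        apply IsFun.unique (down_IsFun q p₁ hfun1 u'' hu''1) (x := x l)
        · exact down_meets _ u' (hq' l) u'' hu''
        · refine down_meets _ _ (hpx (x l) (hxB l)).2.2 u'' ?_
          rw [hk1 l]
          exact hk2 l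
      obtain ⟨r, hr1, hr2, hr3⟩ := hE1 (Finset.univ.image k)
      have hrk : ∀ l, r ≤ px (x l) := by
        intro l
        rw [hk1 l]
        exact hr1 (k l) (Finset.mem_image_of_mem k (Finset.mem_univ l))
      have hrp1 : r ≤ p₁ := by
        have l0 : Fin N := ⟨0, hN⟩
        have h1 := hrk l0
        rw [hk1 l0] at h1
        exact (h1.trans (hpe _)).trans hps
      have hrcl : r ∈ FClique c (↑A ∪ Set.range x) := by
        refine mem_fall.2 fun y => mem_fall.2 fun hy => mem_fall.2 fun z => mem_fall.2 fun hz =>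
          mem_fall.2 fun hyz => ?_
        have mk : ∀ y z, ((j, s(y, z)), true) ∈ r.s → r ∈ meets (c s(y, z)) := by
          intro y z h
          apply meets_of_mem
          rw [hc]
          exact h
        rcases hy with hy | ⟨l, rfl⟩
        · rcases hz with hz | ⟨l', rfl⟩
          · exact hcld _ p₁ hcl r hrp1 y hy z hz hyz
          · apply mk
            rw [Sym2.eq_swap]
            exact hrk l' ((hpx (x l') (hxB l')).2.1 y hy)
        · rcases hz with hz | ⟨l', rfl⟩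
          · apply mk
            exact hrk l ((hpx (x l) (hxB l)).2.1 z hz)
          · apply mk
            rw [hk1 l, hk1 l']
            apply hr2 _ (Finset.mem_image_of_mem k (Finset.mem_univ l)) _
              (Finset.mem_image_of_mem k (Finset.mem_univ l'))
            intro h
            apply hyz
            rw [hk1 l, hk1 l', h]
      have hxB' : ∀ l, x l ∉ B := fun l h =>
        hxB l (Finset.mem_union_left _ (Finset.mem_union_right _ h))
      have hrm : r ∈ meets (H n N a) := by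
        apply (reglr_meets _).2 r
        intro r' hr'
        obtain ⟨r1, hr1', hF⟩ := mem_fimp.1 (hall N x) r' (hr'.trans hrp1)
          ⟨hxB', hcld _ r hrcl r' hr'⟩
        obtain ⟨r2, hr2', hH⟩ := mem_fimp.1 (hF a) r1 le_rfl (fun l => by
          show r1 ∈ meets (q (x l) (a l))
          rw [hval l]
          exact down_meets _ _ (hpx (x l) (hxB l)).2.2 r1 ((hr1'.trans hr').trans (hrk l)))
        exact ⟨r2, hr2'.trans hr1', hH⟩
      refine ⟨u'', hu'', ?_⟩
      refine down_meets _ _ (hj n N a r hrm) u'' (hr3 u'' ?_)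
      intro i hi
      obtain ⟨l, -, rfl⟩ := Finset.mem_image.1 hi
      exact hk2 l

theorem final :
    (∀ (K : Type) [Infinite K], GraphPrinciple K → NoCpUniversal #K) ∧
    (∀ K : Type, (() ∈ ForcesGraphPrinciple Unit K) ↔ GraphPrinciple K) ∧
    (∀ (K : Type) [Uncountable K], ∃ (P : Type) (_ : Preorder P), Nonempty P ∧ CCC P ∧
      ∀ p : P, p ∈ ForcesGraphPrinciple P K) := by
  refine ⟨fun K _ h => noCpUniversal_of_graphPrinciple K h, trivial_forces, fun K _ => ?_⟩
  refine ⟨Cohen ((Order.succ #K).out × Sym2 K), inferInstance, ⟨⟨∅, by simp⟩⟩, cohen_ccc _,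
    fun p => forced K _ ?_ p⟩
  rw [Cardinal.mk_out]
  exact Order.lt_succ _

end Pool.Agent.Helper161.Cpu
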